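import Pool.Agent.Lib_MP_f6e057_co.Defs

namespace Pool.Agent.Lib_MP_f6e057_co

open Finset

section Embed
variable {V : Type*} [DecidableEq V]

/-- a tree embeds wherever single edges can be added greedily -/
theorem embed_tree (G : SimpleGraph V) (Good : Finset V → Prop) (h1 : ∃ v, Good {v}) (M : ℕ)
    (hstep : ∀ Y u, Good Y → Y.card < M → u ∈ Y → ∃ w, w ∉ Y ∧ G.Adj u w ∧ Good (insert w Y)) :
    ∀ (n : ℕ) (W : Type) [Fintype W] (T : SimpleGraph W), T.IsTree → Fintype.card W = n → n ≤ M →
      ∃ φ : W ↪ V, (∀ u v, T.Adj u v → G.Adj (φ u) (φ v)) ∧ Good (univ.map φ) := by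
  intro n
  induction n with
  | zero =>
    intro W _ T hT hcard _
    have := hT.1.nonempty
    have hpos : 0 < Fintype.card W := Fintype.card_pos
    omega
  | succ n ih =>
    intro W _ T hT hcard hM
    classical
    have hne := hT.1.nonempty
    rcases subsingleton_or_nontrivial W with hs | hnt
    · obtain ⟨v, hv⟩ := h1
      obtain ⟨w0⟩ := hne
      refine ⟨⟨fun _ => v, fun a b _ => Subsingleton.elim a b⟩, ?_, ?_⟩
      · intro a b hab
        exact absurd (Subsingleton.elim a b) hab.ne
      · have : (univ.map (⟨fun _ => v, fun a b _ => Subsingleton.elim a b⟩ : W ↪ V)) = {v} := by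
          ext x
          simp only [mem_map, mem_univ, true_and, Function.Embedding.coeFn_mk, mem_singleton]
          constructor
          · rintro ⟨a, rfl⟩; rfl
          · intro h; exact ⟨w0, h.symm⟩
        rw [this]; exact hv
    · obtain ⟨v, hv⟩ := hT.exists_vert_degree_one_of_nontrivial
      have hconn : (T.induce ({v}ᶜ : Set W)).Connected :=
        hT.1.induce_compl_singleton_of_degree_eq_one hv
      have hac : (T.induce ({v}ᶜ : Set W)).IsAcyclic := hT.2.induce _
      have hT' : (T.induce ({v}ᶜ : Set W)).IsTree := ⟨hconn, hac⟩
      have hc' : Fintype.card ({v}ᶜ : Set W) = n := by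
        have h := Fintype.card_compl_set ({v} : Set W)
        rw [Set.card_singleton] at h
        omega
      obtain ⟨φ, hφ, hgood⟩ := ih ({v}ᶜ : Set W) (T.induce ({v}ᶜ : Set W)) hT' hc' (by omega)
      obtain ⟨u, hu⟩ : ∃ u, T.Adj v u := by
        have : 0 < T.degree v := by omega
        obtain ⟨u, hu⟩ := (T.degree_pos_iff_exists_adj v).1 this
        exact ⟨u, hu⟩
      have huniq : ∀ x, T.Adj v x → x = u := by
        intro x hx
        have h2 := T.degree_eq_one_iff_existsUnique_adj.1 hv
        exact h2.unique hx hu
      have huv : u ≠ v := fun h => hu.ne h.symm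
      have hYc : (univ.map φ).card < M := by
        rw [card_map, card_univ, hc']; omega
      obtain ⟨w, hwY, hadj, hgw⟩ := hstep (univ.map φ) (φ ⟨u, huv⟩) hgood hYc
        (mem_map_of_mem _ (mem_univ _))
      have hinj : Function.Injective (fun x : W => if h : x = v then w else φ ⟨x, h⟩) := by
        intro a b hab
        by_cases ha : a = v <;> by_cases hb : b = v
        · rw [ha, hb]
        · simp only [ha, hb, dite_true, dite_false] at hab
          exact absurd (hab ▸ mem_map_of_mem φ (mem_univ _)) hwY
        · simp only [ha, hb, dite_true, dite_false] at hab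
          exact absurd (hab.symm ▸ mem_map_of_mem φ (mem_univ _)) hwY
        · simp only [ha, hb, dite_false] at hab
          have := φ.injective hab
          exact congrArg Subtype.val this
      refine ⟨⟨fun x : W => if h : x = v then w else φ ⟨x, h⟩, hinj⟩, ?_, ?_⟩
      · intro a b hab
        show G.Adj (if h : a = v then w else φ ⟨a, h⟩) (if h : b = v then w else φ ⟨b, h⟩)
        by_cases ha : a = v <;> by_cases hb : b = v
        · exact absurd (ha.trans hb.symm) hab.ne
        · subst ha
          have hbu := huniq b hab
          subst hbu
          simp only [hb, dite_true, dite_false]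
          exact hadj.symm
        · subst hb
          have hau := huniq a hab.symm
          subst hau
          simp only [ha, dite_true, dite_false]
          exact hadj
        · simp only [ha, hb, dite_false]
          exact hφ _ _ hab
      · have : univ.map (⟨fun x : W => if h : x = v then w else φ ⟨x, h⟩, hinj⟩ : W ↪ V)
            = insert w (univ.map φ) := by
          ext x
          simp only [mem_map, mem_univ, true_and, Function.Embedding.coeFn_mk, mem_insert]
          constructor
          · rintro ⟨a, rfl⟩
            by_cases ha : a = v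
            · left; simp [ha]
            · right; exact ⟨⟨a, ha⟩, by simp [ha]⟩
          · rintro (h | ⟨a, rfl⟩)
            · exact ⟨v, by simp [h]⟩
            · refine ⟨a.1, ?_⟩
              have : a.1 ≠ v := a.2
              simp [this]
        rw [this]; exact hgw

end Embed

end Pool.Agent.Lib_MP_f6e057_co
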