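import Pool.Agent.Lib_MP_f6e057_co.Final

/-!
# The exchange lemma for connectivity keeping trees
-/

set_option autoImplicit false
set_option linter.unusedSectionVars false

namespace Pool.Agent.Lib_MP_f6e057_co.Exch

open Finset

section Exchange

variable {W : Type*} [Fintype W] {T : SimpleGraph W}
variable {V : Type*} [Fintype V] [DecidableEq V] {G : SimpleGraph V} [DecidableRel G.Adj]

/-- the case of a core with one vertex -/
theorem Ctx.final_one [DecidableEq W] {y : W} {Rt : Rooted T y} {Z : Finset V} {φ : W → V} {w0 : W}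
    (C : Ctx Rt G Z φ w0) (hI : w0 ∉ intR Rt Z φ w0) : False := by
  have hR : ∀ r, r ∈ Desc Rt w0 → φ r ∈ Z → r = w0 := by
    intro r hr hrZ
    by_contra hne
    have h1 := C.anc1 hr hrZ hne
    have h2 := par_mem Rt hr hne
    have h3 : Rt.par r ∈ intR Rt Z φ w0 := (mem_intR Rt Z φ w0).2 ⟨h2, h1, r, rfl, hrZ⟩
    exact hI (C.intR_anc h3 (self_mem Rt w0) h2)
  obtain ⟨c, hc1, hc2⟩ := C.ynb
  have hcZ : c ∉ Z := by
    intro h
    obtain ⟨a, ha⟩ := C.cover φ C.copy c h
    exact hc2 a ha
  obtain ⟨ψ, h1, _, h3⟩ := reembed Rt G C.copy C.w0y hc2 (by rw [C.par_w0]; exact hc1)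
    (C.hdeg c hcZ) (by
      intro v hv hvw
      apply C.hdeg
      intro hvZ
      obtain ⟨a, ha⟩ := C.cover φ C.copy v hvZ
      by_cases haD : a ∈ Desc Rt w0
      · have := hR a haD (by rw [ha]; exact hvZ)
        rw [this] at ha
        exact hvw ha.symm
      · exact hv a haD ha)
  obtain ⟨a, ha⟩ := C.cover ψ h1 _ C.w0Z
  exact h3 a ha

/-- **Exchange lemma.**  Let `T` be a tree with `m` vertices and `G` a graph with more than `m`
vertices that contains a copy of `T`.  Let `Z` be a nonempty set of vertices of `G` such that every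
vertex outside `Z` has degree at least `m`.  Then some copy of `T` in `G` misses a vertex of
`Z`. -/
theorem exchange (hT : T.IsTree) {Z : Finset V} (hZ : Z.Nonempty)
    (hdeg : ∀ v, v ∉ Z → Fintype.card W ≤ G.degree v)
    (hcard : Fintype.card W < Fintype.card V) {f : W → V} (hf : IsCopy T G f) :
    ∃ g : W → V, IsCopy T G g ∧ ∃ z ∈ Z, ∀ a, g a ≠ z := by
  classical
  by_contra hcon
  push Not at hcon
  have cover : ∀ ψ : W → V, IsCopy T G ψ → ∀ z ∈ Z, ∃ a, ψ a = z := hcon
  -- a missed vertex
  obtain ⟨c, hc⟩ : ∃ c, ∀ a, f a ≠ c := by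
    by_contra h
    push Not at h
    exact absurd (Fintype.card_le_of_surjective f h) (by omega)
  have hcZ : c ∉ Z := by
    intro h
    obtain ⟨a, ha⟩ := cover f hf c h
    exact hc a ha
  -- some vertex of the copy is adjacent to a missed vertex
  obtain ⟨y, hy⟩ : ∃ y, ∃ x, G.Adj (f y) x ∧ ∀ a, f a ≠ x := by
    by_contra hno
    push Not at hno
    obtain ⟨r⟩ := hT.connected.nonempty
    obtain ⟨Rt⟩ := exists_rooted hT r
    have h0 : PE Rt G {r} (fun _ => c) := by
      refine ⟨mem_singleton_self r, ?_, ?_, ?_⟩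
      · intro a ha
        rw [mem_singleton] at *
        rw [ha, Rt.par_root]
      · intro a ha b hb _
        rw [mem_singleton] at *
        rw [ha, hb]
      · intro a ha har
        rw [mem_singleton] at ha
        exact absurd ha har
    obtain ⟨g, h1, h2, h3⟩ := grow Rt G (subset_univ {r}) (fun a _ => mem_univ _) h0
      {x | ∀ a, f a ≠ x} (by
      intro P g hP0 _ hPE hg0 hgF a _ haP hpa
      have hxC : ∀ b, f b ≠ g (Rt.par a) := by
        by_cases hr : Rt.par a ∈ ({r} : Finset W)
        · rw [hg0 _ hr]; exact hc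
        · exact hgF _ hpa hr
      have hxZ : g (Rt.par a) ∉ Z := by
        intro h
        obtain ⟨b, hb⟩ := cover f hf _ h
        exact hxC b hb
      have hSc : (P.image g).card ≤ G.degree (g (Rt.par a)) :=
        (card_image_le.trans (card_le_univ _)).trans (hdeg _ hxZ)
      obtain ⟨v, hv1, hv2⟩ := exists_nbr G (mem_image_of_mem g hpa) hSc
      refine ⟨v, ?_, ?_, hv1⟩
      · intro b hb
        obtain ⟨b', hb'⟩ := hno b (g (Rt.par a)) (by rw [hb]; exact hv1.symm)
        exact hxC b' hb'
      · intro b hb hbv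
        apply hv2
        rw [← hbv]; exact mem_image_of_mem g hb)
    obtain ⟨z, hz⟩ := hZ
    obtain ⟨a, ha⟩ := cover g (h1.full Rt G) z hz
    by_cases har : a ∈ ({r} : Finset W)
    · rw [h2 a har] at ha
      exact hcZ (by rw [ha]; exact hz)
    · have h4 := h3 a (mem_univ a) har
      obtain ⟨b, hb⟩ := cover f hf z hz
      exact h4 b (by rw [ha, hb])
  -- the set of triples
  let Trip : (W → V) → W → W → Prop := fun ψ v w => IsCopy T G ψ ∧ T.Adj v w ∧
    (∃ x, G.Adj (ψ v) x ∧ ∀ a, ψ a ≠ x) ∧ ∃ b ∈ Br T v w, ψ b ∈ Z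
  have hex : ∃ n : ℕ, ∃ ψ v w, Trip ψ v w ∧ (Br T v w).card = n := by
    obtain ⟨Rt⟩ := exists_rooted hT y
    by_cases hb : ∃ b, b ≠ y ∧ f b ∈ Z
    · obtain ⟨b, hby, hbZ⟩ := hb
      -- the child of `y` above `b`
      have hch : ∃ w, w ≠ y ∧ Rt.par w = y ∧ b ∈ Desc Rt w := by
        have key : ∀ (n : ℕ) (b : W), Rt.dep b = n → b ≠ y →
            ∃ w, w ≠ y ∧ Rt.par w = y ∧ b ∈ Desc Rt w := by
          intro n
          induction n with
          | zero =>
            intro b hb hby
            have := Rt.dep_par b hby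
            omega
          | succ n ih =>
            intro b hb hby
            by_cases hp : Rt.par b = y
            · exact ⟨b, hby, hp, self_mem Rt b⟩
            · obtain ⟨w, h1, h2, h3⟩ := ih (Rt.par b) (by have := Rt.dep_par b hby; omega) hp
              exact ⟨w, h1, h2, child_mem Rt h3⟩
        exact key _ b rfl hby
      obtain ⟨w, hwy, hpw, hbw⟩ := hch
      refine ⟨_, f, y, w, ⟨hf, ?_, hy, b, ?_, hbZ⟩, rfl⟩
      · have := Rt.adj_par w hwy
        rwa [hpw] at this
      · have := br_eq_desc Rt hwy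
        rw [hpw] at this
        rw [this]; exact hbw
    · exfalso
      push Not at hb
      obtain ⟨z, hz⟩ := hZ
      have hzy : z = f y := by
        obtain ⟨a, ha⟩ := cover f hf z hz
        by_cases hay : a = y
        · rw [← ha, hay]
        · exact absurd (by rw [ha]; exact hz) (hb a hay)
      have h0 : PE Rt G {y} (fun _ => c) := by
        refine ⟨mem_singleton_self y, ?_, ?_, ?_⟩
        · intro a ha
          rw [mem_singleton] at *
          rw [ha, Rt.par_root]
        · intro a ha b hb _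
          rw [mem_singleton] at *
          rw [ha, hb]
        · intro a ha har
          rw [mem_singleton] at ha
          exact absurd ha har
      obtain ⟨g, h1, _, h3⟩ := grow_avoid Rt G h0 (f y) (fun b _ h => hc y h.symm) (by
          intro v _ hv
          apply hdeg
          intro hvZ
          obtain ⟨a, ha⟩ := cover f hf v hvZ
          by_cases hay : a = y
          · rw [hay] at ha; exact hv ha.symm
          · exact absurd (by rw [ha]; exact hvZ) (hb a hay)) (by
          intro a _ _
          exact hdeg c hcZ)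
      obtain ⟨a, ha⟩ := cover g h1 z hz
      exact h3 a (by rw [ha, hzy])
  obtain ⟨φ, y', w0, hT0, hn⟩ := Nat.find_spec hex
  have hmin := fun n (h : n < Nat.find hex) => Nat.find_min hex h
  obtain ⟨hφ, hadj, hyn, b, hb, hbZ⟩ := hT0
  obtain ⟨Rt⟩ := exists_rooted hT y'
  have hpw : w0 ≠ y' ∧ Rt.par w0 = y' := by
    rcases Rt.adj_cases y' w0 hadj with h | h
    · exact h
    · exact absurd rfl h.1
  have hbr := br_eq_desc Rt hpw.1
  rw [hpw.2] at hbr
  have C : Ctx Rt G Z φ w0 := by
    refine ⟨hφ, cover, hdeg, hpw.1, hpw.2, hyn, ⟨b, by rw [← hbr]; exact hb, hbZ⟩, ?_⟩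
    intro ψ w hψ hwy hx hZw
    by_contra hlt
    push Not at hlt
    have hbr' := br_eq_desc Rt hwy
    obtain ⟨b', hb', hb'Z⟩ := hZw
    apply hmin (Desc Rt w).card (by rw [← hn, hbr]; exact hlt)
    exact ⟨ψ, Rt.par w, w, ⟨hψ, Rt.adj_par w hwy, hx, b', by rw [hbr']; exact hb', hb'Z⟩,
      by rw [hbr']⟩
  by_cases hI : w0 ∈ intR Rt Z φ w0
  · exact C.final hI
  · exact C.final_one hI

end Exchange

end Pool.Agent.Lib_MP_f6e057_co.Exch
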