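import Pool.Agent.Lib_MP_f6e057_co.Defs

namespace Pool.Agent.Lib_MP_f6e057_co

open Finset

set_option linter.unusedSectionVars false

section Basic
variable {V : Type*} [Fintype V] [DecidableEq V] (G : SimpleGraph V) [DecidableRel G.Adj]

theorem nb_submod (A B : Finset V) :
    (nb G (A ∩ B)).card + (nb G (A ∪ B)).card ≤ (nb G A).card + (nb G B).card := by
  have h1 : nb G (A ∩ B) ∪ nb G (A ∪ B) ⊆ nb G A ∪ nb G B := by
    intro v hv
    simp only [mem_union, mem_nb, mem_inter] at hv ⊢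
    rcases hv with ⟨h, u, ⟨huA, huB⟩, ha⟩ | ⟨h, u, hu, ha⟩
    · by_cases hvA : v ∈ A
      · right; exact ⟨fun h' => h ⟨hvA, h'⟩, u, huB, ha⟩
      · left; exact ⟨hvA, u, huA, ha⟩
    · rcases hu with hu | hu
      · left; exact ⟨fun h' => h (Or.inl h'), u, hu, ha⟩
      · right; exact ⟨fun h' => h (Or.inr h'), u, hu, ha⟩
  have h2 : nb G (A ∩ B) ∩ nb G (A ∪ B) ⊆ nb G A ∩ nb G B := by
    intro v hv
    simp only [mem_union, mem_nb, mem_inter] at hv ⊢
    obtain ⟨⟨h, u, ⟨huA, huB⟩, ha⟩, h', -⟩ := hv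
    exact ⟨⟨fun h'' => h' (Or.inl h''), u, huA, ha⟩, ⟨fun h'' => h' (Or.inr h''), u, huB, ha⟩⟩
  have h3 := card_union_add_card_inter (nb G (A ∩ B)) (nb G (A ∪ B))
  have h4 := card_union_add_card_inter (nb G A) (nb G B)
  have h5 := card_le_card h1
  have h6 := card_le_card h2
  omega

theorem deg_le {F : Finset V} {v : V} (hv : v ∈ F) :
    G.degree v + 1 ≤ F.card + (nb G F).card := by
  have h1 : G.neighborFinset v ⊆ (F.erase v) ∪ nb G F := by
    intro u hu
    simp only [SimpleGraph.mem_neighborFinset] at hu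
    simp only [mem_union, mem_erase, mem_nb]
    by_cases huF : u ∈ F
    · left; exact ⟨hu.ne', huF⟩
    · right; exact ⟨huF, v, hv, hu⟩
  have h2 := card_le_card h1
  have h3 := card_union_le (F.erase v) (nb G F)
  have h4 := card_erase_of_mem hv
  have h5 : 0 < F.card := card_pos.mpr ⟨v, hv⟩
  rw [SimpleGraph.card_neighborFinset_eq_degree] at h2
  omega

theorem Frag.mono {A B : Finset V} (hA : A.Nonempty) (hAB : A ⊆ B) (hB : Frag G B) :
    Frag G A := by
  obtain ⟨-, v, hv1, hv2⟩ := hB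
  refine ⟨hA, v, fun h => hv1 (hAB h), fun h => ?_⟩
  rw [mem_nb] at h hv2
  obtain ⟨_, u, hu, ha⟩ := h
  exact hv2 ⟨hv1, u, hAB hu, ha⟩

/-- a walk between two vertices of a separated set leaves it -/
theorem reach_closed {W : Type*} {H : SimpleGraph W} {D : Set W}
    (hD : ∀ a ∈ D, ∀ b, H.Adj a b → b ∈ D) {a b : W} (h : H.Reachable a b) (ha : a ∈ D) :
    b ∈ D := by
  obtain ⟨p⟩ := h
  induction p with
  | nil => exact ha
  | cons hadj _ ih => exact ih (hD _ ha _ hadj)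

theorem frag_of_kconn {k : ℕ} (hk : KConnected k G) {F : Finset V} (hF : Frag G F) :
    k ≤ (nb G F).card := by
  by_contra hlt
  push Not at hlt
  obtain ⟨⟨u, hu⟩, v, hv1, hv2⟩ := hF
  have hc := hk.2 (nb G F : Set V) (by rwa [Set.ncard_coe_finset])
  have hu' : u ∈ ((nb G F : Set V)ᶜ) := by
    simp only [Set.mem_compl_iff, mem_coe, mem_nb]; tauto
  have hv' : v ∈ ((nb G F : Set V)ᶜ) := by simpa using hv2
  have hr := hc.preconnected ⟨u, hu'⟩ ⟨v, hv'⟩
  have := reach_closed (D := {w : ((nb G F : Set V)ᶜ : Set V) | (w : V) ∈ F}) ?_ hr hu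
  · exact hv1 this
  · rintro ⟨a, ha'⟩ ha ⟨b, hb'⟩ hab
    simp only [Set.mem_ofPred_eq] at ha ⊢
    simp only [SimpleGraph.comap_adj, Function.Embedding.subtype_apply] at hab
    by_contra hbF
    apply hb'
    rw [mem_coe, mem_nb]
    exact ⟨hbF, a, ha, hab⟩

theorem kconn_of_noSep {k : ℕ} {T : Finset V} (hcard : k + T.card < Fintype.card V)
    (h : ∀ D1 D2 : Finset V, ¬ Sep G k T D1 D2) :
    KConnected k (G.induce ((T : Set V)ᶜ)) := by
  classical
  have hcT : Nat.card ((T : Set V)ᶜ : Set V) = Fintype.card V - T.card := by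
    rw [Nat.card_coe_set_eq, Set.ncard_compl, Set.ncard_coe_finset, Nat.card_eq_fintype_card]
  refine ⟨by rw [hcT]; omega, fun S hS => ?_⟩
  by_contra hnc
  have hSc : 0 < (Sᶜ).ncard := by
    rw [Set.ncard_compl, hcT]; omega
  obtain ⟨a, ha⟩ := (Set.ncard_pos).mp hSc
  have hnp : ¬ ((G.induce ((T : Set V)ᶜ)).induce Sᶜ).Preconnected := by
    intro hp
    have : Nonempty (Sᶜ : Set _) := ⟨⟨a, ha⟩⟩
    exact hnc (SimpleGraph.Connected.mk hp)
  unfold SimpleGraph.Preconnected at hnp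
  push Not at hnp
  obtain ⟨x, y, hxy⟩ := hnp
  set H := (G.induce ((T : Set V)ᶜ)).induce Sᶜ with hH
  let D1 : Finset V := univ.filter fun v => ∃ w : (Sᶜ : Set _), ((w : ((T : Set V)ᶜ : Set V)) : V) = v ∧ H.Reachable x w
  let D2 : Finset V := univ.filter fun v => ∃ w : (Sᶜ : Set _), ((w : ((T : Set V)ᶜ : Set V)) : V) = v ∧ ¬ H.Reachable x w
  apply h D1 D2
  refine ⟨?_, ?_, ?_, ?_, ?_, ?_, ?_⟩
  · exact ⟨_, by simp only [D1, mem_filter, mem_univ, true_and]; exact ⟨x, rfl, SimpleGraph.Reachable.refl _⟩⟩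
  · exact ⟨_, by simp only [D2, mem_filter, mem_univ, true_and]; exact ⟨y, rfl, hxy⟩⟩
  · rw [disjoint_left]
    rintro v h1 h2
    simp only [D1, D2, mem_filter, mem_univ, true_and] at h1 h2
    obtain ⟨w, rfl, hw⟩ := h1
    obtain ⟨w', hw', hn⟩ := h2
    have : w' = w := Subtype.ext (Subtype.ext hw')
    subst this
    exact hn hw
  · rw [disjoint_left]
    rintro v h1 h2
    simp only [D1, mem_filter, mem_univ, true_and] at h1
    obtain ⟨w, rfl, hw⟩ := h1
    exact w.1.2 h2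
  · rw [disjoint_left]
    rintro v h1 h2
    simp only [D2, mem_filter, mem_univ, true_and] at h1
    obtain ⟨w, rfl, hw⟩ := h1
    exact w.1.2 h2
  · intro a ha b hb hab
    simp only [D1, D2, mem_filter, mem_univ, true_and] at ha hb
    obtain ⟨w, rfl, hw⟩ := ha
    obtain ⟨w', rfl, hn⟩ := hb
    apply hn
    apply hw.trans
    apply SimpleGraph.Adj.reachable
    simpa [hH] using hab
  · refine lt_of_le_of_lt ?_ hS
    rw [← Set.ncard_coe_finset]
    have hsub : ((univ \ (D1 ∪ D2 ∪ T) : Finset V) : Set V) ⊆ Subtype.val '' S := by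
      intro v hv
      simp only [coe_sdiff, coe_univ, coe_union, Set.mem_sdiff, Set.mem_univ, true_and,
        Set.mem_union, mem_coe, not_or] at hv
      obtain ⟨⟨h1, h2⟩, h3⟩ := hv
      by_contra hvS
      have hvT : v ∈ ((T : Set V)ᶜ) := h3
      have hvS' : (⟨v, hvT⟩ : ((T : Set V)ᶜ : Set V)) ∈ Sᶜ := by
        intro hh
        exact hvS ⟨_, hh, rfl⟩
      by_cases hr : H.Reachable x ⟨⟨v, hvT⟩, hvS'⟩
      · apply h1
        simp only [D1, mem_filter, mem_univ, true_and]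
        exact ⟨_, rfl, hr⟩
      · apply h2
        simp only [D2, mem_filter, mem_univ, true_and]
        exact ⟨_, rfl, hr⟩
    calc _ ≤ (Subtype.val '' S).ncard := Set.ncard_le_ncard hsub
      _ ≤ S.ncard := Set.ncard_image_le

end Basic

end Pool.Agent.Lib_MP_f6e057_co
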