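import Pool.Agent.Lib_MP_f6e057_co.Rooted

/-!
# Partial embeddings of a rooted tree and greedy extension (for the exchange lemma)
-/

set_option autoImplicit false
set_option linter.unusedSectionVars false

namespace Pool.Agent.Lib_MP_f6e057_co.Exch

open Finset

section PE

variable {W : Type*} [Fintype W] [DecidableEq W] {T : SimpleGraph W} {y : W} (Rt : Rooted T y)
variable {V : Type*} [Fintype V] [DecidableEq V] (G : SimpleGraph V) [DecidableRel G.Adj]

/-- a copy of `T` in `G` -/
def IsCopy (T : SimpleGraph W) (G : SimpleGraph V) (g : W → V) : Prop :=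
  Function.Injective g ∧ ∀ a b, T.Adj a b → G.Adj (g a) (g b)

/-- partial embedding on the parent-closed set `P` -/
structure PE (P : Finset W) (g : W → V) : Prop where
  root_mem : y ∈ P
  par_mem : ∀ a ∈ P, Rt.par a ∈ P
  inj : ∀ a ∈ P, ∀ b ∈ P, g a = g b → a = b
  adj : ∀ a ∈ P, a ≠ y → G.Adj (g (Rt.par a)) (g a)

theorem PE.extend {P : Finset W} {g : W → V} (h : PE Rt G P g) {a : W} (ha : a ∉ P)
    (hpa : Rt.par a ∈ P) {x : V} (hx : ∀ b ∈ P, g b ≠ x) (hadj : G.Adj (g (Rt.par a)) x) :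
    PE Rt G (insert a P) (Function.update g a x) := by
  have hne : ∀ b ∈ P, b ≠ a := fun b hb hba => ha (hba ▸ hb)
  refine ⟨mem_insert_of_mem h.root_mem, ?_, ?_, ?_⟩
  · intro b hb
    rcases mem_insert.1 hb with rfl | hb
    · exact mem_insert_of_mem hpa
    · exact mem_insert_of_mem (h.par_mem b hb)
  · intro b hb c hc hbc
    rcases mem_insert.1 hb with hb1 | hb1
    · rcases mem_insert.1 hc with hc1 | hc1
      · rw [hb1, hc1]
      · exfalso
        rw [hb1, Function.update_self, Function.update_of_ne (hne c hc1)] at hbc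
        exact hx c hc1 hbc.symm
    · rcases mem_insert.1 hc with hc1 | hc1
      · exfalso
        rw [hc1, Function.update_self, Function.update_of_ne (hne b hb1)] at hbc
        exact hx b hb1 hbc
      · rw [Function.update_of_ne (hne b hb1), Function.update_of_ne (hne c hc1)] at hbc
        exact h.inj b hb1 c hc1 hbc
  · intro b hb hby
    rcases mem_insert.1 hb with hb1 | hb1
    · subst hb1
      rw [Function.update_self, Function.update_of_ne (hne _ hpa)]
      exact hadj
    · rw [Function.update_of_ne (hne _ hb1), Function.update_of_ne (hne _ (h.par_mem b hb1))]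
      exact h.adj b hb1 hby

theorem PE.full {g : W → V} (h : PE Rt G univ g) : IsCopy T G g := by
  refine ⟨fun a b hab => h.inj a (mem_univ a) b (mem_univ b) hab, ?_⟩
  intro a b hab
  rcases Rt.adj_cases a b hab with ⟨h1, h2⟩ | ⟨h1, h2⟩
  · have := h.adj b (mem_univ b) h1
    rwa [h2] at this
  · have := h.adj a (mem_univ a) h1
    rw [h2] at this
    exact this.symm

theorem IsCopy.pe {g : W → V} (h : IsCopy T G g) {P : Finset W} (hy : y ∈ P)
    (hP : ∀ a ∈ P, Rt.par a ∈ P) : PE Rt G P g :=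
  ⟨hy, hP, fun _ _ _ _ hab => h.1 hab, fun a _ hay => h.2 _ _ (Rt.adj_par a hay)⟩

theorem PE.anc {P : Finset W} {g : W → V} (h : PE Rt G P g) {a b : W} (hb : b ∈ P)
    (hba : b ∈ Desc Rt a) : a ∈ P := by
  rw [mem_Desc] at hba
  obtain ⟨n, hn⟩ := hba
  induction n generalizing b with
  | zero => rw [← hn]; exact hb
  | succ n ih =>
    rw [Function.iterate_succ_apply] at hn
    exact ih (h.par_mem b hb) hn

/-- general greedy extension from `P0` to `Q` with new positions in `F` -/
theorem grow {P0 Q : Finset W} (hPQ : P0 ⊆ Q) (hQ : ∀ a ∈ Q, Rt.par a ∈ Q) {g0 : W → V}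
    (h0 : PE Rt G P0 g0) (F : Set V)
    (H : ∀ (P : Finset W) (g : W → V), P0 ⊆ P → P ⊆ Q → PE Rt G P g → (∀ a ∈ P0, g a = g0 a) →
      (∀ a ∈ P, a ∉ P0 → g a ∈ F) → ∀ a ∈ Q, a ∉ P → Rt.par a ∈ P →
      ∃ x ∈ F, (∀ b ∈ P, g b ≠ x) ∧ G.Adj (g (Rt.par a)) x) :
    ∃ g, PE Rt G Q g ∧ (∀ a ∈ P0, g a = g0 a) ∧ (∀ a ∈ Q, a ∉ P0 → g a ∈ F) := by
  have key : ∀ (n : ℕ) (P : Finset W) (g : W → V), (Q \ P).card = n → P0 ⊆ P → P ⊆ Q →
      PE Rt G P g → (∀ a ∈ P0, g a = g0 a) → (∀ a ∈ P, a ∉ P0 → g a ∈ F) →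
      ∃ g, PE Rt G Q g ∧ (∀ a ∈ P0, g a = g0 a) ∧ (∀ a ∈ Q, a ∉ P0 → g a ∈ F) := by
    intro n
    induction n with
    | zero =>
      intro P g hc h1 h2 h3 h4 h5
      have hsub : Q ⊆ P := by
        rw [card_eq_zero, sdiff_eq_empty_iff_subset] at hc
        exact hc
      have hPeq : P = Q := Subset.antisymm h2 hsub
      subst hPeq
      exact ⟨g, h3, h4, h5⟩
    | succ n ih =>
      intro P g hc h1 h2 h3 h4 h5
      have hne : (Q \ P).Nonempty := by
        rw [← card_pos, hc]; omega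
      obtain ⟨a, ha, hmin⟩ := (Q \ P).exists_min_image Rt.dep hne
      rw [mem_sdiff] at ha
      have hay : a ≠ y := fun h => ha.2 (h ▸ h3.root_mem)
      have hpa : Rt.par a ∈ P := by
        by_contra hpa
        have h6 := hmin (Rt.par a) (mem_sdiff.2 ⟨hQ a ha.1, hpa⟩)
        have h7 := Rt.dep_par a hay
        omega
      obtain ⟨x, hxF, hx, hadj⟩ := H P g h1 h2 h3 h4 h5 a ha.1 ha.2 hpa
      have hne' : ∀ b ∈ P, b ≠ a := fun b hb hba => ha.2 (hba ▸ hb)
      refine ih (insert a P) (Function.update g a x) ?_ ?_ ?_ (h3.extend Rt G ha.2 hpa hx hadj)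
        ?_ ?_
      · have h8 : Q \ insert a P = (Q \ P).erase a := by
          ext b
          simp only [mem_sdiff, mem_insert, mem_erase, not_or]
          tauto
        rw [h8, card_erase_of_mem (mem_sdiff.2 ha), hc]
        omega
      · exact h1.trans (subset_insert a P)
      · intro b hb
        rcases mem_insert.1 hb with rfl | hb
        · exact ha.1
        · exact h2 hb
      · intro b hb
        rw [Function.update_of_ne (hne' b (h1 hb))]
        exact h4 b hb
      · intro b hb hb0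
        rcases mem_insert.1 hb with hb1 | hb1
        · rw [hb1, Function.update_self]; exact hxF
        · rw [Function.update_of_ne (hne' b hb1)]
          exact h5 b hb1 hb0
  exact key _ P0 g0 rfl (Subset.refl _) hPQ h0 (fun _ _ => rfl) (fun a h h' => absurd h h')

theorem exists_nbr {x : V} {S : Finset V} (hx : x ∈ S) (h : S.card ≤ G.degree x) :
    ∃ v, G.Adj x v ∧ v ∉ S := by
  have h1 : (S.erase x).card < (G.neighborFinset x).card := by
    rw [card_erase_of_mem hx, SimpleGraph.card_neighborFinset_eq_degree]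
    have : 0 < S.card := card_pos.2 ⟨x, hx⟩
    omega
  obtain ⟨v, hv, hvS⟩ := exists_mem_notMem_of_card_lt_card h1
  rw [SimpleGraph.mem_neighborFinset] at hv
  refine ⟨v, hv, fun hvS' => hvS (mem_erase.2 ⟨hv.ne', hvS'⟩)⟩

/-- greedy completion avoiding one vertex -/
theorem grow_avoid {P0 : Finset W} {g0 : W → V} (h0 : PE Rt G P0 g0) (x0 : V)
    (hx0 : ∀ b ∈ P0, g0 b ≠ x0)
    (hdeg : ∀ v, (∀ b ∈ P0, g0 b ≠ v) → v ≠ x0 → Fintype.card W ≤ G.degree v)
    (hdeg2 : ∀ a, a ∉ P0 → Rt.par a ∈ P0 → Fintype.card W ≤ G.degree (g0 (Rt.par a))) :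
    ∃ g, IsCopy T G g ∧ (∀ a ∈ P0, g a = g0 a) ∧ ∀ a, g a ≠ x0 := by
  obtain ⟨g, h1, h2, h3⟩ := grow Rt G (subset_univ P0) (fun a _ => mem_univ _) h0
    {x | x ≠ x0} (by
      intro P g hP0 _ hPE hg0 hgF a _ haP hpa
      have hx : Fintype.card W ≤ G.degree (g (Rt.par a)) := by
        by_cases hpa0 : Rt.par a ∈ P0
        · rw [hg0 _ hpa0]
          exact hdeg2 a (fun h => haP (hP0 h)) hpa0
        · apply hdeg _ _ (hgF _ hpa hpa0)
          intro b hb hbe
          rw [← hg0 b hb] at hbe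
          exact hpa0 (hPE.inj b (hP0 hb) _ hpa hbe ▸ hb)
      have hcard : P.card < Fintype.card W := by
        rw [← card_univ]
        apply card_lt_card
        exact ssubset_univ_iff.2 (fun h => haP (by rw [h]; exact mem_univ a))
      have hS : (insert x0 (P.image g)).card ≤ G.degree (g (Rt.par a)) := by
        have h4 := card_insert_le x0 (P.image g)
        have h5 : (P.image g).card ≤ P.card := card_image_le
        omega
      obtain ⟨v, hv1, hv2⟩ := exists_nbr G
        (mem_insert_of_mem (mem_image_of_mem g hpa)) hS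
      rw [mem_insert, mem_image, not_or] at hv2
      refine ⟨v, hv2.1, ?_, hv1⟩
      intro b hb hbv
      exact hv2.2 ⟨b, hb, hbv⟩)
  refine ⟨g, h1.full Rt G, h2, ?_⟩
  intro a
  by_cases ha : a ∈ P0
  · rw [h2 a ha]; exact hx0 a ha
  · exact h3 a (mem_univ a) ha

/-- re-embed the branch of descendants of `b` from a missed vertex `x'`, avoiding the old place of
`b` -/
theorem reembed {ψ : W → V} (hψ : IsCopy T G ψ) {b : W} (hb : b ≠ y) {x' : V}
    (hx' : ∀ a, ψ a ≠ x') (hadj : G.Adj (ψ (Rt.par b)) x')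
    (hdx : Fintype.card W ≤ G.degree x')
    (hdeg : ∀ v, (∀ a, a ∉ Desc Rt b → ψ a ≠ v) → v ≠ ψ b → Fintype.card W ≤ G.degree v) :
    ∃ ψ', IsCopy T G ψ' ∧ (∀ a, a ∉ Desc Rt b → ψ' a = ψ a) ∧ ∀ a, ψ' a ≠ ψ b := by
  classical
  have hP1 : PE Rt G (univ \ Desc Rt b) ψ := by
    apply hψ.pe Rt G
    · rw [mem_sdiff]
      exact ⟨mem_univ _, fun h => hb (eq_root_of_root_mem Rt h)⟩
    · intro a ha
      rw [mem_sdiff] at *
      exact ⟨mem_univ _, fun h => ha.2 (child_mem Rt h)⟩
  have hbP : b ∉ univ \ Desc Rt b := by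
    rw [mem_sdiff]; exact fun h => h.2 (self_mem Rt b)
  have hpP : Rt.par b ∈ univ \ Desc Rt b := by
    rw [mem_sdiff]; exact ⟨mem_univ _, par_notMem Rt hb⟩
  have hP2 := hP1.extend Rt G hbP hpP (x := x') (fun a _ => hx' a) hadj
  obtain ⟨g, h1, h2, h3⟩ := grow_avoid Rt G hP2 (ψ b) (by
      intro a ha
      rcases mem_insert.1 ha with rfl | ha
      · rw [Function.update_self]; exact (hx' _).symm
      · have hab : a ≠ b := fun h => hbP (h ▸ ha)
        rw [Function.update_of_ne hab]
        exact fun h => hab (hψ.1 h)) (by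
      intro v hv hvb
      refine hdeg v ?_ hvb
      intro a ha
      have ha1 : a ∈ univ \ Desc Rt b := mem_sdiff.2 ⟨mem_univ _, ha⟩
      have hab : a ≠ b := fun h => hbP (h ▸ ha1)
      have := hv a (mem_insert_of_mem ha1)
      rwa [Function.update_of_ne hab] at this) (by
      intro a ha hpa
      rw [mem_insert, not_or] at ha
      have haD : a ∈ Desc Rt b := by
        by_contra h
        exact ha.2 (mem_sdiff.2 ⟨mem_univ _, h⟩)
      have hpaD := par_mem Rt haD ha.1
      have : Rt.par a = b := by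
        rcases mem_insert.1 hpa with h | h
        · exact h
        · exact absurd hpaD (mem_sdiff.1 h).2
      rw [this, Function.update_self]
      exact hdx)
  refine ⟨g, h1, ?_, h3⟩
  intro a ha
  have ha1 : a ∈ univ \ Desc Rt b := mem_sdiff.2 ⟨mem_univ _, ha⟩
  have hab : a ≠ b := fun h => hbP (h ▸ ha1)
  rw [h2 a (mem_insert_of_mem ha1), Function.update_of_ne hab]

end PE

end Pool.Agent.Lib_MP_f6e057_co.Exch
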