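import Pool.Agent.Lib_MP_f6e057_co.Defs

namespace Pool.Agent.Lib_MP_f6e057_co

open Finset

section Main
variable {V : Type*} [Fintype V] [DecidableEq V] (G : SimpleGraph V) [DecidableRel G.Adj]

private theorem submodX (A B : Finset V) :
    (nb G (A ∩ B)).card + (nb G (A ∪ B)).card ≤ (nb G A).card + (nb G B).card := by
  have h1 : nb G (A ∩ B) ∪ nb G (A ∪ B) ⊆ nb G A ∪ nb G B := by
    intro v hv
    rw [mem_union] at hv ⊢
    rcases hv with hv | hv
    · obtain ⟨h, u, hu, huv⟩ := (mem_nb G).1 hv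
      rw [mem_inter] at hu
      by_cases hvA : v ∈ A
      · right
        exact (mem_nb G).2 ⟨fun hvB => h (mem_inter.2 ⟨hvA, hvB⟩), u, hu.2, huv⟩
      · left
        exact (mem_nb G).2 ⟨hvA, u, hu.1, huv⟩
    · obtain ⟨h, u, hu, huv⟩ := (mem_nb G).1 hv
      rw [mem_union] at hu h
      push Not at h
      rcases hu with hu | hu
      · left
        exact (mem_nb G).2 ⟨h.1, u, hu, huv⟩
      · right
        exact (mem_nb G).2 ⟨h.2, u, hu, huv⟩
  have h2 : nb G (A ∩ B) ∩ nb G (A ∪ B) ⊆ nb G A ∩ nb G B := by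
    intro v hv
    rw [mem_inter] at hv ⊢
    obtain ⟨hv1, hv2⟩ := hv
    obtain ⟨h, u, hu, huv⟩ := (mem_nb G).1 hv1
    obtain ⟨h', -⟩ := (mem_nb G).1 hv2
    rw [mem_inter] at hu
    rw [mem_union] at h'
    push Not at h'
    exact ⟨(mem_nb G).2 ⟨h'.1, u, hu.1, huv⟩, (mem_nb G).2 ⟨h'.2, u, hu.2, huv⟩⟩
  have h3 := card_union_add_card_inter (nb G (A ∩ B)) (nb G (A ∪ B))
  have h4 := card_union_add_card_inter (nb G A) (nb G B)
  have h5 := card_le_card h1
  have h6 := card_le_card h2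
  omega

private theorem fragMonoX {A B : Finset V} (hA : A.Nonempty) (hAB : A ⊆ B) (hB : Frag G B) :
    Frag G A := by
  obtain ⟨-, v, hv, hv'⟩ := hB
  refine ⟨hA, v, fun h => hv (hAB h), fun h => hv' ?_⟩
  obtain ⟨-, u, hu, huv⟩ := (mem_nb G).1 h
  exact (mem_nb G).2 ⟨hv, u, hAB hu, huv⟩

omit [DecidableRel G.Adj] in
private theorem sepSymmX {k : ℕ} {T D1 D2 : Finset V} (h : Sep G k T D1 D2) :
    Sep G k T D2 D1 :=
  ⟨h.ne2, h.ne1, h.disj.symm, h.disj2, h.disj1, fun a ha b hb hab => h.nadj b hb a ha hab.symm,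
    by rw [union_comm D2 D1]; exact h.small⟩

/-- the neighbours of a side lie outside both sides, so there are fewer than `k + m` -/
private theorem nbSideX {k m : ℕ} {T D1 D2 : Finset V} (hTm : T.card = m)
    (hsep : Sep G k T D1 D2) : (nb G D1).card < k + m := by
  have h1 : nb G D1 ⊆ (univ \ (D1 ∪ D2 ∪ T)) ∪ T := by
    intro v hv
    obtain ⟨h, u, hu, huv⟩ := (mem_nb G).1 hv
    have h2 : v ∉ D2 := fun h2 => hsep.nadj u hu v h2 huv
    by_cases hT : v ∈ T
    · exact mem_union_right _ hT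
    · apply mem_union_left
      simp [h, h2, hT]
  have h2 := card_le_card h1
  have h3 := card_union_le (univ \ (D1 ∪ D2 ∪ T)) T
  have h4 := hsep.small
  omega

/-- one half of the crossing argument -/
private theorem halfX {k m : ℕ} (hkc : ∀ F, Frag G F → k ≤ (nb G F).card)
    {P0 T D1 D2 : Finset V}
    (h0 : Frag G P0) (h0' : (nb G P0).card < k + m)
    (hmin0 : ∀ F, Frag G F → (nb G F).card < k + m → P0.card ≤ F.card)
    (hTm : T.card = m) (hsep : Sep G k T D1 D2)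
    (hC1 : (P0 ∩ D1).Nonempty) (hC2 : (P0 ∩ D2).Nonempty) :
    (nb G (P0 ∩ D1)).card + 1 ≤ (nb G P0).card + m := by
  have hfC1 : k + m ≤ (nb G (P0 ∩ D1)).card := by
    by_contra hlt
    push Not at hlt
    have h1 := hmin0 _ (fragMonoX G hC1 inter_subset_left h0) hlt
    have h2 : P0 ∩ D1 ⊂ P0 := by
      refine Finset.ssubset_iff_subset_ne.2 ⟨inter_subset_left, fun heq => ?_⟩
      obtain ⟨w, hw⟩ := hC2
      rw [mem_inter] at hw
      have : w ∈ P0 ∩ D1 := by rw [heq]; exact hw.1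
      exact disjoint_left.1 hsep.disj (mem_inter.1 this).2 hw.2
    have := card_lt_card h2
    omega
  -- a vertex of the other side far from `P0`
  have hex : ∃ v ∈ D2, v ∉ P0 ∧ v ∉ nb G P0 := by
    by_contra hno
    push Not at hno
    have hD2frag : Frag G D2 := by
      refine ⟨hsep.ne2, ?_⟩
      obtain ⟨w, hw⟩ := hsep.ne1
      refine ⟨w, fun h => disjoint_left.1 hsep.disj hw h, fun h => ?_⟩
      obtain ⟨-, u, hu, huw⟩ := (mem_nb G).1 h
      exact hsep.nadj w hw u hu huw.symm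
    have hD2 : P0.card ≤ D2.card := hmin0 _ hD2frag (nbSideX G hTm (sepSymmX G hsep))
    -- partition of D2
    have e1 : D2 ⊆ (P0 ∩ D2) ∪ (nb G P0 ∩ D2) := by
      intro v hv
      by_cases h : v ∈ P0
      · exact mem_union_left _ (mem_inter.2 ⟨h, hv⟩)
      · exact mem_union_right _ (mem_inter.2 ⟨hno v hv h, hv⟩)
    have e2 := card_le_card e1
    have e3 := card_union_le (P0 ∩ D2) (nb G P0 ∩ D2)
    -- partition of P0
    have e4 : (P0 ∩ D1) ∪ (P0 ∩ D2) ∪ (P0 \ (D1 ∪ D2)) ⊆ P0 := by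
      intro v hv
      simp only [mem_union, mem_inter, mem_sdiff] at hv
      tauto
    have e5 := card_le_card e4
    have e6 : Disjoint (P0 ∩ D1) (P0 ∩ D2) := by
      rw [disjoint_left]
      intro v h1 h2
      exact disjoint_left.1 hsep.disj (mem_inter.1 h1).2 (mem_inter.1 h2).2
    have e7 : Disjoint ((P0 ∩ D1) ∪ (P0 ∩ D2)) (P0 \ (D1 ∪ D2)) := by
      rw [disjoint_left]
      intro v h1 h2
      simp only [mem_union, mem_inter, mem_sdiff] at h1 h2
      tauto
    rw [card_union_of_disjoint e7, card_union_of_disjoint e6] at e5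
    -- the neighbours of `C1`
    have g1 : nb G (P0 ∩ D1) ⊆ (nb G P0 \ D2) ∪ (P0 \ (D1 ∪ D2)) := by
      intro v hv
      obtain ⟨h, u, hu, huv⟩ := (mem_nb G).1 hv
      rw [mem_inter] at hu
      have hvD2 : v ∉ D2 := fun h2 => hsep.nadj u hu.2 v h2 huv
      by_cases hvP : v ∈ P0
      · have hvD1 : v ∉ D1 := fun h1 => h (mem_inter.2 ⟨hvP, h1⟩)
        apply mem_union_right
        simp [hvP, hvD1, hvD2]
      · apply mem_union_left
        rw [mem_sdiff]
        exact ⟨(mem_nb G).2 ⟨hvP, u, hu.1, huv⟩, hvD2⟩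
    have g2 := card_le_card g1
    have g3 := card_union_le (nb G P0 \ D2) (P0 \ (D1 ∪ D2))
    have g4 : (nb G P0 \ D2).card + (nb G P0 ∩ D2).card = (nb G P0).card :=
      card_sdiff_add_card_inter _ _
    have g5 := card_pos.2 hC1
    omega
  obtain ⟨v, hvD2, hvP0, hvN⟩ := hex
  have hfrag : Frag G (P0 ∪ D1) := by
    refine ⟨h0.1.mono subset_union_left, v, ?_, ?_⟩
    · rw [mem_union]
      push Not
      exact ⟨hvP0, fun h => disjoint_left.1 hsep.disj h hvD2⟩
    · intro h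
      obtain ⟨-, u, hu, huv⟩ := (mem_nb G).1 h
      rcases mem_union.1 hu with hu | hu
      · exact hvN ((mem_nb G).2 ⟨hvP0, u, hu, huv⟩)
      · exact hsep.nadj u hu v hvD2 huv
  have h1 := hkc _ hfrag
  have h2 := submodX G P0 D1
  have h3 := nbSideX G hTm hsep
  omega

/-- Step 3: the sides of a separation cannot both meet `P`. -/
theorem crossing {k m : ℕ} (hkc : ∀ F, Frag G F → k ≤ (nb G F).card)
    {P0 P T D1 D2 : Finset V} (hm : 1 ≤ m)
    (h0 : Frag G P0) (h0' : (nb G P0).card < k + m)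
    (hmin0 : ∀ F, Frag G F → (nb G F).card < k + m → P0.card ≤ F.card)
    (hPP0 : P ⊆ P0)
    (hPle : (nb G P).card + 2 ≤ (nb G P0).card + 2 * m)
    (hPmin : ∀ F, F ⊂ P → F.Nonempty → (nb G P0).card + 2 * m < (nb G F).card + 2)
    (hT : T ⊆ P) (hTm : T.card = m) (hsep : Sep G k T D1 D2) :
    Disjoint P D1 ∨ Disjoint P D2 := by
  by_contra hcon
  push Not at hcon
  obtain ⟨hd1, hd2⟩ := hcon
  rw [not_disjoint_iff_nonempty_inter] at hd1 hd2
  have hC1 : (P0 ∩ D1).Nonempty := hd1.mono (inter_subset_inter_right hPP0)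
  have hC2 : (P0 ∩ D2).Nonempty := hd2.mono (inter_subset_inter_right hPP0)
  have a1 := halfX G hkc h0 h0' hmin0 hTm hsep hC1 hC2
  have a2 := halfX G hkc h0 h0' hmin0 hTm (sepSymmX G hsep) hC2 hC1
  have s1 : P ∩ D1 ⊂ P := by
    refine Finset.ssubset_iff_subset_ne.2 ⟨inter_subset_left, fun heq => ?_⟩
    obtain ⟨w, hw⟩ := hd2
    rw [mem_inter] at hw
    have : w ∈ P ∩ D1 := by rw [heq]; exact hw.1
    exact disjoint_left.1 hsep.disj (mem_inter.1 this).2 hw.2
  have s2 : P ∩ D2 ⊂ P := by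
    refine Finset.ssubset_iff_subset_ne.2 ⟨inter_subset_left, fun heq => ?_⟩
    obtain ⟨w, hw⟩ := hd1
    rw [mem_inter] at hw
    have : w ∈ P ∩ D2 := by rw [heq]; exact hw.1
    exact disjoint_left.1 hsep.disj hw.2 (mem_inter.1 this).2
  have b1 := hPmin _ s1 hd1
  have b2 := hPmin _ s2 hd2
  have c1 := submodX G P (P0 ∩ D1)
  have c2 := submodX G P (P0 ∩ D2)
  have i1 : P ∩ (P0 ∩ D1) = P ∩ D1 := by
    rw [← inter_assoc, inter_eq_left.2 hPP0]
  have i2 : P ∩ (P0 ∩ D2) = P ∩ D2 := by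
    rw [← inter_assoc, inter_eq_left.2 hPP0]
  rw [i1] at c1
  rw [i2] at c2
  have c3 := submodX G (P ∪ (P0 ∩ D1)) (P ∪ (P0 ∩ D2))
  have i3 : (P ∪ (P0 ∩ D1)) ∩ (P ∪ (P0 ∩ D2)) = P := by
    ext v
    simp only [mem_inter, mem_union]
    constructor
    · rintro ⟨h1, h2⟩
      by_contra hv
      have h3 : v ∈ D1 := by tauto
      have h4 : v ∈ D2 := by tauto
      exact disjoint_left.1 hsep.disj h3 h4
    · intro h
      exact ⟨Or.inl h, Or.inl h⟩
  rw [i3] at c3
  have hQ : (nb G P0).card ≤ (nb G (P ∪ (P0 ∩ D1) ∪ (P ∪ (P0 ∩ D2)))).card := by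
    have hsub : P ∪ (P0 ∩ D1) ∪ (P ∪ (P0 ∩ D2)) ⊆ P0 := by
      intro v hv
      simp only [mem_union, mem_inter] at hv
      rcases hv with (h | h) | (h | h)
      · exact hPP0 h
      · exact h.1
      · exact hPP0 h
      · exact h.1
    by_cases heq : P ∪ (P0 ∩ D1) ∪ (P ∪ (P0 ∩ D2)) = P0
    · rw [heq]
    · have hss : P ∪ (P0 ∩ D1) ∪ (P ∪ (P0 ∩ D2)) ⊂ P0 := Finset.ssubset_iff_subset_ne.2 ⟨hsub, heq⟩
      have hne : (P ∪ (P0 ∩ D1) ∪ (P ∪ (P0 ∩ D2))).Nonempty := by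
        obtain ⟨w, hw⟩ := hC1
        exact ⟨w, mem_union_left _ (mem_union_right _ hw)⟩
      have hfr := fragMonoX G hne hsub h0
      by_contra hlt
      push Not at hlt
      have h1 := hmin0 _ hfr (by omega)
      have h2 := card_lt_card hss
      omega
  omega

end Main

end Pool.Agent.Lib_MP_f6e057_co
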