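import Pool.Agent.Lib_MP_f6e057_co.Defs

/-!
# Room for greedy embedding (piece GREEDY)
-/

set_option autoImplicit false

namespace Pool.Agent.Lib_MP_f6e057_co

open Finset

namespace GreedyAux

variable {V : Type*} [Fintype V] [DecidableEq V] (G : SimpleGraph V) [DecidableRel G.Adj]

theorem U_mono {P A B : Finset V} (h : A ⊆ B) : U G P A ⊆ U G P B := by
  intro v hv
  rw [mem_U] at *
  obtain ⟨h1, a, ha, h2⟩ := hv
  exact ⟨h1, a, h ha, h2⟩

theorem U_union (P A B : Finset V) : U G P (A ∪ B) = U G P A ∪ U G P B := by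
  ext v
  simp only [mem_U, mem_union]
  constructor
  · rintro ⟨h1, a, ha | ha, h2⟩
    · exact Or.inl ⟨h1, a, ha, h2⟩
    · exact Or.inr ⟨h1, a, ha, h2⟩
  · rintro (⟨h1, a, ha, h2⟩ | ⟨h1, a, ha, h2⟩)
    · exact ⟨h1, a, Or.inl ha, h2⟩
    · exact ⟨h1, a, Or.inr ha, h2⟩

theorem U_subset (P A : Finset V) : U G P A ⊆ P := by
  intro v hv
  exact ((mem_U G).1 hv).1

theorem U_empty (P : Finset V) : U G P ∅ = ∅ := by
  ext v
  simp [mem_U]

/-- the Hall surplus -/
theorem surplus {P : Finset V}
    (hPmin : ∀ F, F ⊂ P → F.Nonempty → (nb G P).card < (nb G F).card)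
    {A : Finset V} (hA : A ⊆ nb G P) (hU : U G P A ≠ P) (hne : A.Nonempty) :
    A.card + 1 ≤ (U G P A).card := by
  obtain ⟨a, ha⟩ := hne
  obtain ⟨_, u, hu, hau⟩ := (mem_nb G).1 (hA ha)
  have huU : u ∈ U G P A := (mem_U G).2 ⟨hu, a, ha, hau.symm⟩
  have hss : P \ U G P A ⊂ P := by
    refine ssubset_of_ne_of_subset ?_ sdiff_subset
    intro h
    have : u ∈ P \ U G P A := by rw [h]; exact hu
    exact (mem_sdiff.1 this).2 huU
  have hne2 : (P \ U G P A).Nonempty := by
    rw [sdiff_nonempty]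
    intro h
    exact hU (Subset.antisymm (U_subset G P A) h)
  have h1 := hPmin _ hss hne2
  have h2 : nb G (P \ U G P A) ⊆ U G P A ∪ (nb G P \ A) := by
    intro v hv
    obtain ⟨hv1, w, hw, hwv⟩ := (mem_nb G).1 hv
    obtain ⟨hwP, hwU⟩ := mem_sdiff.1 hw
    rw [mem_union]
    by_cases hvP : v ∈ P
    · left
      by_contra hvU
      exact hv1 (mem_sdiff.2 ⟨hvP, hvU⟩)
    · right
      rw [mem_sdiff]
      refine ⟨(mem_nb G).2 ⟨hvP, w, hwP, hwv⟩, ?_⟩
      intro hvA
      exact hwU ((mem_U G).2 ⟨hwP, v, hvA, hwv.symm⟩)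
  have h3 := (card_le_card h2).trans (card_union_le _ _)
  have h4 := card_sdiff_add_card_eq_card hA
  omega

theorem hall {P : Finset V}
    (hPmin : ∀ F, F ⊂ P → F.Nonempty → (nb G P).card < (nb G F).card)
    {A : Finset V} (hA : A ⊆ nb G P) (hU : U G P A ≠ P) :
    A.card ≤ (U G P A).card := by
  rcases A.eq_empty_or_nonempty with h | h
  · subst h; simp
  · have := surplus G hPmin hA hU h
    omega

theorem deg_bound {P : Finset V} {d : ℕ} (hd : ∀ v, d ≤ G.degree v)
    {A : Finset V} (hA : A ⊆ nb G P) (hU : U G P A ≠ P) :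
    A.card + d + 1 ≤ P.card + (nb G P).card := by
  have hne2 : (P \ U G P A).Nonempty := by
    rw [sdiff_nonempty]
    intro h
    exact hU (Subset.antisymm (U_subset G P A) h)
  obtain ⟨v, hv⟩ := hne2
  obtain ⟨hvP, hvU⟩ := mem_sdiff.1 hv
  have h1 : G.neighborFinset v ⊆ P.erase v ∪ (nb G P \ A) := by
    intro w hw
    rw [SimpleGraph.mem_neighborFinset] at hw
    rw [mem_union, mem_erase, mem_sdiff]
    by_cases hwP : w ∈ P
    · exact Or.inl ⟨hw.ne', hwP⟩
    · right
      refine ⟨(mem_nb G).2 ⟨hwP, v, hvP, hw⟩, ?_⟩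
      intro hwA
      exact hvU ((mem_U G).2 ⟨hvP, w, hwA, hw.symm⟩)
  have h2 := (card_le_card h1).trans (card_union_le _ _)
  rw [SimpleGraph.card_neighborFinset_eq_degree, card_erase_of_mem hvP] at h2
  have h3 := card_sdiff_add_card_eq_card hA
  have h4 := hd v
  have h5 : 0 < P.card := card_pos.2 ⟨v, hvP⟩
  omega

theorem ne_of_subset {P A B : Finset V} (h : A ⊆ B) (hB : U G P B ≠ P) : U G P A ≠ P := by
  intro h'
  apply hB
  refine Subset.antisymm (U_subset G P B) ?_
  rw [← h']
  exact (U_mono G h).trans (le_of_eq (by rw [h']))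

/-- closure under unions -/
theorem closure {P : Finset V} {d : ℕ}
    (hPmin : ∀ F, F ⊂ P → F.Nonempty → (nb G P).card < (nb G F).card)
    (hd : ∀ v, d ≤ G.degree v)
    {A B : Finset V} (hA : A ⊆ nb G P) (hUA : U G P A ≠ P) (hB : B ⊆ nb G P)
    (hUB : U G P B ≠ P) {s1 s2 : ℕ} (h1 : (U G P A).card ≤ A.card + s1)
    (h2 : (U G P B).card ≤ B.card + s2) (hs : 3 * (nb G P).card + 2 * (s1 + s2) < 2 * d + 2) :
    U G P (A ∪ B) ≠ P := by
  intro h
  have e1 : (U G P (A ∪ B)).card = P.card := by rw [h]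
  rw [U_union] at e1
  have e2 := card_union_add_card_inter (U G P A) (U G P B)
  have e3 : U G P (A ∩ B) ⊆ U G P A ∩ U G P B :=
    subset_inter (U_mono G inter_subset_left) (U_mono G inter_subset_right)
  have e4 := card_le_card e3
  have e5 := hall G hPmin (inter_subset_left.trans hA) (ne_of_subset G inter_subset_left hUA)
    (A := A ∩ B)
  have e6 := card_union_add_card_inter A B
  have e7 := card_le_card (union_subset hA hB)
  have e8 := deg_bound G hd hA hUA
  have e9 := deg_bound G hd hB hUB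
  omega

end GreedyAux

open GreedyAux

section Main
variable {V : Type*} [Fintype V] [DecidableEq V] (G : SimpleGraph V) [DecidableRel G.Adj]

/-- Step 5: room for greedy embedding. -/
theorem greedy {m d : ℕ} {P : Finset V} (hm : 1 ≤ m) (hPne : P.Nonempty)
    (hPpos : 1 ≤ (nb G P).card)
    (hPmin : ∀ F, F ⊂ P → F.Nonempty → (nb G P).card < (nb G F).card)
    (hd : ∀ v, d ≤ G.degree v) (hdp : 3 * (nb G P).card + 6 * m ≤ 2 * d + 3) :
    ∃ Good : Finset V → Prop, (∃ v, Good {v}) ∧
      (∀ Y u, Good Y → Y.card < m → u ∈ Y → ∃ w, w ∉ Y ∧ G.Adj u w ∧ Good (insert w Y)) ∧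
      (∀ Y, Good Y → Y ⊆ P ∧ ∀ A, A ⊆ nb G P → U G P A ≠ P → A.card ≤ (U G P A \ Y).card) := by
  classical
  set p := (nb G P).card with hp
  -- the family of admissible sets
  set UU : Finset (Finset V) := (nb G P).powerset.filter fun A => U G P A ≠ P with hUU
  have memUU : ∀ A, A ∈ UU ↔ A ⊆ nb G P ∧ U G P A ≠ P := by
    intro A
    rw [hUU, mem_filter, mem_powerset]
  have hempty : (∅ : Finset V) ∈ UU := by
    rw [memUU]
    refine ⟨empty_subset _, ?_⟩
    rw [U_empty]
    exact hPne.ne_empty.symm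
  obtain ⟨A0, hA0, hmin⟩ := exists_min_image UU
    (fun A => (p : ℤ) * ((U G P A).card : ℤ) - ((p : ℤ) + 2 * m) * (A.card : ℤ)) ⟨∅, hempty⟩
  obtain ⟨hA0s, hA0U⟩ := (memUU A0).1 hA0
  have hA0le : (U G P A0).card ≤ A0.card + 2 * m := by
    have h1 := hmin ∅ hempty
    rw [U_empty] at h1
    simp only [card_empty, Nat.cast_zero, mul_zero, sub_zero] at h1
    have h2 : A0.card ≤ p := card_le_card hA0s
    have h2' : (A0.card : ℤ) ≤ p := by exact_mod_cast h2
    have h3 : (0 : ℤ) < p := by exact_mod_cast hPpos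
    have h4 : (0 : ℤ) ≤ m := by positivity
    have h5 : (p : ℤ) * ((U G P A0).card : ℤ) ≤ p * ((A0.card : ℤ) + 2 * m) := by
      nlinarith
    have h6 := le_of_mul_le_mul_left h5 h3
    exact_mod_cast h6
  have hnbr : ∀ v ∈ P \ U G P A0, d ≤
      ((P \ U G P A0).filter fun w => G.Adj v w).card + p + 2 * m := by
    intro v hv
    obtain ⟨hvP, hvU⟩ := mem_sdiff.1 hv
    have h1 : G.neighborFinset v ⊆ ((P \ U G P A0).filter fun w => G.Adj v w) ∪
        (U G P A0 ∪ (nb G P \ A0)) := by
      intro w hw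
      rw [SimpleGraph.mem_neighborFinset] at hw
      rw [mem_union, mem_union, mem_filter, mem_sdiff, mem_sdiff]
      by_cases hwP : w ∈ P
      · by_cases hwU : w ∈ U G P A0
        · exact Or.inr (Or.inl hwU)
        · exact Or.inl ⟨⟨hwP, hwU⟩, hw⟩
      · right; right
        refine ⟨(mem_nb G).2 ⟨hwP, v, hvP, hw⟩, ?_⟩
        intro hwA
        exact hvU ((mem_U G).2 ⟨hvP, w, hwA, hw.symm⟩)
    have h2 := (card_le_card h1).trans ((card_union_le _ _).trans
      (Nat.add_le_add_left (card_union_le _ _) _))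
    rw [SimpleGraph.card_neighborFinset_eq_degree] at h2
    have h3 := card_sdiff_add_card_eq_card hA0s
    have h4 := hd v
    omega
  refine ⟨fun Y => Y ⊆ P \ U G P A0 ∧ ∀ A ∈ UU, A.card ≤ (U G P A \ Y).card, ?_, ?_, ?_⟩
  · -- a single vertex is good
    have hne2 : (P \ U G P A0).Nonempty := by
      rw [sdiff_nonempty]
      intro h
      exact hA0U (Subset.antisymm (U_subset G P A0) h)
    obtain ⟨v, hv⟩ := hne2
    refine ⟨v, singleton_subset_iff.2 hv, fun A hA => ?_⟩
    obtain ⟨hAs, hAU⟩ := (memUU A).1 hA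
    rcases A.eq_empty_or_nonempty with h | h
    · subst h; simp
    · have h1 := surplus G hPmin hAs hAU h
      have h2 := le_card_sdiff {v} (U G P A)
      rw [card_singleton] at h2
      omega
  · -- the step
    rintro Y u ⟨hYP, hYA⟩ hYm huY
    set t := Y.card with ht
    -- tight sets
    set TT : Finset (Finset V) := UU.filter fun A => (U G P A \ Y).card = A.card with hTT
    have memTT : ∀ A, A ∈ TT ↔ A ∈ UU ∧ (U G P A \ Y).card = A.card := by
      intro A
      rw [hTT, mem_filter]
    have hemptyT : (∅ : Finset V) ∈ TT := by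
      rw [memTT]
      exact ⟨hempty, by rw [U_empty]; simp⟩
    have htight : ∀ A ∈ TT, (U G P A).card ≤ A.card + t := by
      intro A hA
      have h1 := ((memTT A).1 hA).2
      have h2 := le_card_sdiff Y (U G P A)
      omega
    obtain ⟨B, hB, hBmax⟩ := exists_max_image TT (fun A => A.card) ⟨∅, hemptyT⟩
    obtain ⟨hBU, hBt⟩ := (memTT B).1 hB
    obtain ⟨hBs, hBU'⟩ := (memUU B).1 hBU
    have hall_sub : ∀ A ∈ TT, A ⊆ B := by
      intro A hA
      obtain ⟨hAU, hAt⟩ := (memTT A).1 hA
      obtain ⟨hAs, hAU'⟩ := (memUU A).1 hAU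
      have hne := closure G hPmin hd hAs hAU' hBs hBU' (htight A hA) (htight B hB)
        (by rw [← hp]; omega)
      have hUUab : A ∪ B ∈ UU := (memUU _).2 ⟨union_subset hAs hBs, hne⟩
      have hUUi : A ∩ B ∈ UU := (memUU _).2 ⟨inter_subset_left.trans hAs,
        ne_of_subset G inter_subset_left hAU'⟩
      have h1 := hYA _ hUUab
      have h2 := hYA _ hUUi
      have h3 : U G P (A ∪ B) \ Y = (U G P A \ Y) ∪ (U G P B \ Y) := by
        rw [U_union, union_sdiff_distrib]
      have h4 : U G P (A ∩ B) \ Y ⊆ (U G P A \ Y) ∩ (U G P B \ Y) :=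
        subset_inter (sdiff_subset_sdiff (U_mono G inter_subset_left) (Subset.refl Y))
          (sdiff_subset_sdiff (U_mono G inter_subset_right) (Subset.refl Y))
      have h5 := card_union_add_card_inter (U G P A \ Y) (U G P B \ Y)
      rw [← h3] at h5
      have h6 := card_le_card h4
      have h7 := card_union_add_card_inter A B
      have h8 : A ∪ B ∈ TT := (memTT _).2 ⟨hUUab, by omega⟩
      have h9 := hBmax _ h8
      have h10 : B = A ∪ B := eq_of_subset_of_card_le subset_union_right h9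
      rw [h10]
      exact subset_union_left
    -- the union with A0
    have hneA : U G P (A0 ∪ B) ≠ P :=
      closure G hPmin hd hA0s hA0U hBs hBU' hA0le (htight B hB) (by rw [← hp]; omega)
    have hUUA : A0 ∪ B ∈ UU := (memUU _).2 ⟨union_subset hA0s hBs, hneA⟩
    have hpsi := hmin _ hUUA
    have c1 : (U G P (A0 ∪ B)).card = (U G P A0).card + (U G P B \ U G P A0).card := by
      rw [U_union, ← card_union_of_disjoint disjoint_sdiff, union_sdiff_self_eq_union]
    have c2 : (A0 ∪ B).card = A0.card + (B \ A0).card := by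
      rw [← card_union_of_disjoint disjoint_sdiff, union_sdiff_self_eq_union]
    -- bound for the new part
    have c3 : ((U G P B \ U G P A0) \ Y).card ≤ (B \ A0).card := by
      have hUUi : A0 ∩ B ∈ UU := (memUU _).2 ⟨inter_subset_left.trans hA0s,
        ne_of_subset G inter_subset_left hA0U⟩
      have h2 := hYA _ hUUi
      have h3 : Disjoint ((U G P B \ U G P A0) \ Y) (U G P (A0 ∩ B) \ Y) := by
        rw [disjoint_left]
        intro v hv hv'
        have h4 := (mem_sdiff.1 (mem_sdiff.1 hv).1).2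
        exact h4 (U_mono G inter_subset_left (mem_sdiff.1 hv').1)
      have h4 : ((U G P B \ U G P A0) \ Y) ∪ (U G P (A0 ∩ B) \ Y) ⊆ U G P B \ Y := by
        apply union_subset
        · exact sdiff_subset_sdiff sdiff_subset (Subset.refl Y)
        · exact sdiff_subset_sdiff (U_mono G inter_subset_right) (Subset.refl Y)
      have h5 := card_le_card h4
      rw [card_union_of_disjoint h3, hBt] at h5
      have h6 : (B \ A0).card + (A0 ∩ B).card = B.card := by
        rw [inter_comm]
        exact card_sdiff_add_card_inter B A0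
      omega
    have c4 : (U G P B \ U G P A0).card ≤ (B \ A0).card + t := by
      have h2 := le_card_sdiff Y (U G P B \ U G P A0)
      omega
    set β := (B \ A0).card with hβ
    have c5 : 2 * m * β ≤ t * p := by
      rw [c1, c2] at hpsi
      have h1 : ((U G P B \ U G P A0).card : ℤ) ≤ (β : ℤ) + t := by exact_mod_cast c4
      have h2 : (0 : ℤ) < p := by exact_mod_cast hPpos
      have h3 : (2 * (m : ℤ) * β) ≤ t * p := by
        push_cast at hpsi
        nlinarith
      exact_mod_cast h3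
    have c6 : 2 * β + 1 ≤ p := by
      by_contra hcon
      have h1 : p ≤ 2 * β := by omega
      have h2 : m * p ≤ m * (2 * β) := Nat.mul_le_mul_left m h1
      have h3 : t * p < m * p := Nat.mul_lt_mul_of_pos_right hYm (by omega)
      have h4 : m * (2 * β) = 2 * m * β := by ring
      omega
    have c7 : d ≥ p + 2 * m + t + β := by omega
    have huP : u ∈ P \ U G P A0 := hYP huY
    have c8 := hnbr u huP
    -- choose w
    have c9 : ∃ w ∈ (P \ U G P A0).filter (fun w => G.Adj u w), w ∉ (Y.erase u) ∪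
        ((U G P B \ U G P A0) \ Y) := by
      by_contra hcon
      push Not at hcon
      have h1 := card_le_card (fun w hw => hcon w hw :
        (P \ U G P A0).filter (fun w => G.Adj u w) ⊆ (Y.erase u) ∪
        ((U G P B \ U G P A0) \ Y))
      have h2 := h1.trans (card_union_le _ _)
      rw [card_erase_of_mem huY] at h2
      have h3 : 0 < Y.card := card_pos.2 ⟨u, huY⟩
      omega
    obtain ⟨w, hw, hw2⟩ := c9
    obtain ⟨hwP, hwadj⟩ := mem_filter.1 hw
    have hwne : w ≠ u := hwadj.ne'
    have hwY : w ∉ Y := by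
      intro h
      exact hw2 (mem_union_left _ (mem_erase.2 ⟨hwne, h⟩))
    have hwB : w ∉ U G P B := by
      intro h
      exact hw2 (mem_union_right _ (mem_sdiff.2 ⟨mem_sdiff.2 ⟨h, (mem_sdiff.1 hwP).2⟩, hwY⟩))
    refine ⟨w, hwY, hwadj, ?_, fun A hA => ?_⟩
    · exact insert_subset hwP hYP
    · by_cases hwA : w ∈ U G P A
      · have hnt : (U G P A \ Y).card ≠ A.card := by
          intro h
          have h1 : A ∈ TT := (memTT A).2 ⟨hA, h⟩
          exact hwB (U_mono G (hall_sub A h1) hwA)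
        have h2 := hYA A hA
        have h3 : U G P A \ insert w Y = (U G P A \ Y).erase w := by
          rw [sdiff_insert]
        rw [h3, card_erase_of_mem (mem_sdiff.2 ⟨hwA, hwY⟩)]
        omega
      · have h3 : U G P A \ insert w Y = U G P A \ Y := by
          rw [sdiff_insert, erase_eq_of_notMem]
          intro h
          exact hwA (mem_sdiff.1 h).1
        rw [h3]
        exact hYA A hA
  · rintro Y ⟨hYP, hYA⟩
    exact ⟨hYP.trans sdiff_subset, fun A hA hAU => hYA A ((memUU A).2 ⟨hA, hAU⟩)⟩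

end Main

end Pool.Agent.Lib_MP_f6e057_co
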