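import Pool.Agent.Lib_MP_f6e057_co.Defs

namespace Pool.Agent.Lib_MP_f6e057_co

open Finset

section Outside
variable {V : Type*} [Fintype V] [DecidableEq V] (G : SimpleGraph V) [DecidableRel G.Adj]

theorem outside_deg {F : Finset V} {v : V} (hv : v ∈ F) :
    G.degree v + 1 ≤ F.card + (nb G F).card := by
  have h1 : G.neighborFinset v ⊆ (F.erase v) ∪ nb G F := by
    intro w hw
    rw [SimpleGraph.mem_neighborFinset] at hw
    rw [mem_union, mem_erase, mem_nb]
    by_cases hwF : w ∈ F
    · exact Or.inl ⟨hw.ne', hwF⟩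
    · exact Or.inr ⟨hwF, v, hv, hw⟩
  have h2 := card_le_card h1
  have h3 := card_union_le (F.erase v) (nb G F)
  have h4 := card_erase_add_one hv
  rw [SimpleGraph.card_neighborFinset_eq_degree] at h2
  omega

/-- nonempty subsets of a side are fragments -/
theorem outside_frag {F D1 D2 : Finset V} (hF : F.Nonempty) (hFD : F ⊆ D1)
    (h2 : D2.Nonempty) (hdisj : Disjoint D1 D2) (hn : ∀ a ∈ D1, ∀ b ∈ D2, ¬ G.Adj a b) :
    Frag G F := by
  obtain ⟨v, hv⟩ := h2
  refine ⟨hF, v, fun h => ?_, fun h => ?_⟩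
  · exact (disjoint_left.1 hdisj) (hFD h) hv
  · rw [mem_nb] at h
    obtain ⟨-, u, hu, huv⟩ := h
    exact hn u (hFD hu) v hv huv

/-- neighbours of subsets of a side stay away from the other side -/
theorem outside_nb {F D1 D2 : Finset V} (hFD : F ⊆ D1)
    (hn : ∀ a ∈ D1, ∀ b ∈ D2, ¬ G.Adj a b) {w : V} (hw : w ∈ nb G F) : w ∉ D2 := by
  intro h
  rw [mem_nb] at hw
  obtain ⟨-, u, hu, huw⟩ := hw
  exact hn u (hFD hu) w h huw

/-- the count on one side when `P` lies in the separator -/
theorem outside_side {k m : ℕ} (hkc : ∀ F, Frag G F → k ≤ (nb G F).card)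
    {P0 P D1 D2 X : Finset V} (hm : 1 ≤ m)
    (hmin0 : ∀ F, Frag G F → (nb G F).card < k + m → P0.card ≤ F.card)
    (hPP0 : P ⊆ P0) (hX : X = univ \ (D1 ∪ D2)) (hXc : X.card < k + m)
    (hne1 : D1.Nonempty) (hne2 : D2.Nonempty) (hdisj : Disjoint D1 D2)
    (hn : ∀ a ∈ D1, ∀ b ∈ D2, ¬ G.Adj a b) (hPX : P ⊆ X) :
    P.card + 1 ≤ (nb G P ∩ D1).card + m := by
  have hP1 : Disjoint P D1 := by
    rw [disjoint_left]
    intro v hv h1
    have := hPX hv
    rw [hX, mem_sdiff, mem_union] at this
    exact this.2 (Or.inl h1)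
  by_cases hE : (D1 \ nb G P).Nonempty
  · have hfr : Frag G (D1 \ nb G P) := outside_frag G hE sdiff_subset hne2 hdisj hn
    have hk := hkc _ hfr
    have hsub : nb G (D1 \ nb G P) ⊆ (nb G P ∩ D1) ∪ (X \ P) := by
      intro w hw
      have hw2 : w ∉ D2 := outside_nb G sdiff_subset hn hw
      rw [mem_nb] at hw
      obtain ⟨hw1, u, hu, huw⟩ := hw
      rw [mem_sdiff, mem_nb] at hu
      have hwP : w ∉ P := by
        intro hwP
        exact hu.2 ⟨fun h => (disjoint_left.1 hP1) h hu.1, w, hwP, huw.symm⟩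
      rw [mem_union, mem_inter, mem_sdiff]
      by_cases hwD : w ∈ D1
      · left
        refine ⟨?_, hwD⟩
        by_contra hc
        exact hw1 (mem_sdiff.2 ⟨hwD, hc⟩)
      · right
        refine ⟨?_, hwP⟩
        rw [hX, mem_sdiff, mem_union]
        exact ⟨mem_univ _, by tauto⟩
    have h1 := card_le_card hsub
    have h2 := card_union_le (nb G P ∩ D1) (X \ P)
    have h3 : (X \ P).card + P.card = X.card := card_sdiff_add_card_eq_card hPX
    omega
  · rw [not_nonempty_iff_eq_empty, sdiff_eq_empty_iff_subset] at hE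
    have h1 : nb G P ∩ D1 = D1 := inter_eq_right.2 hE
    rw [h1]
    have hfr : Frag G D1 := outside_frag G hne1 (Subset.refl _) hne2 hdisj hn
    have hsub : nb G D1 ⊆ X := by
      intro w hw
      have hw2 : w ∉ D2 := outside_nb G (Subset.refl _) hn hw
      rw [mem_nb] at hw
      rw [hX, mem_sdiff, mem_union]
      exact ⟨mem_univ _, by tauto⟩
    have h2 := hmin0 _ hfr (lt_of_le_of_lt (card_le_card hsub) hXc)
    have h3 := card_le_card hPP0
    omega

/-- Step 4: if one side misses `P` then Hall's condition fails in `P` minus `T`. -/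
theorem outside {k m d : ℕ} (hkc : ∀ F, Frag G F → k ≤ (nb G F).card)
    {P0 P T D1 D2 : Finset V} (hm : 1 ≤ m)
    (hmin0 : ∀ F, Frag G F → (nb G F).card < k + m → P0.card ≤ F.card)
    (hPP0 : P ⊆ P0) (hPne : P.Nonempty)
    (hPmin : ∀ F, F ⊂ P → F.Nonempty → (nb G P).card < (nb G F).card)
    (hd : ∀ v, d ≤ G.degree v) (hdp : 3 * (nb G P).card + 2 * m < 2 * d + 4)
    (hT : T ⊆ P) (hTm : T.card = m) (hsep : Sep G k T D1 D2) (hP : Disjoint P D1) :
    ∃ A, A ⊆ nb G P ∧ U G P A ≠ P ∧ (U G P A \ T).card < A.card := by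
  obtain ⟨hne1, hne2, hdisj, hdT1, hdT2, hn, hsmall⟩ := hsep
  set X : Finset V := univ \ (D1 ∪ D2) with hX
  have hTX : T ⊆ X := by
    intro v hv
    rw [hX, mem_sdiff, mem_union]
    refine ⟨mem_univ _, ?_⟩
    rintro (h | h)
    · exact (disjoint_left.1 hdT1) h hv
    · exact (disjoint_left.1 hdT2) h hv
  have hXT : X \ T = univ \ (D1 ∪ D2 ∪ T) := by
    rw [hX, sdiff_sdiff_left, sup_eq_union]
  have hXTc : (X \ T).card < k := by rw [hXT]; exact hsmall
  have hXc : X.card < k + m := by
    have := card_sdiff_add_card_eq_card hTX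
    omega
  have hnbX : nb G D1 ⊆ X := by
    intro w hw
    have hw2 : w ∉ D2 := outside_nb G (Subset.refl _) hn hw
    rw [mem_nb] at hw
    rw [hX, mem_sdiff, mem_union]
    exact ⟨mem_univ _, by tauto⟩
  have hfr1 : Frag G D1 := outside_frag G hne1 (Subset.refl _) hne2 hdisj hn
  have hPD : ∀ u ∈ P, u ∉ D1 := fun u hu h => (disjoint_left.1 hP) hu h
  set A : Finset V := nb G P ∩ D1 with hA
  have hUP : U G P A ⊆ P := filter_subset _ _
  have hUnb : U G P A ⊆ nb G D1 := by
    intro u hu
    rw [mem_U] at hu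
    obtain ⟨huP, a, ha, hau⟩ := hu
    rw [mem_nb]
    exact ⟨hPD u huP, a, (mem_inter.1 ha).2, hau⟩
  -- a vertex of `P` adjacent to `D1` belongs to `U A`
  have hadj : ∀ u ∈ P, ∀ a ∈ D1, G.Adj a u → a ∈ A := by
    intro u hu a ha hau
    rw [hA, mem_inter, mem_nb]
    exact ⟨⟨fun h => hPD a h ha, u, hu, hau.symm⟩, ha⟩
  have hAne : A.Nonempty := by
    by_contra hcon
    rw [not_nonempty_iff_eq_empty] at hcon
    have hsub : nb G D1 ⊆ X \ T := by
      intro w hw
      rw [mem_sdiff]
      refine ⟨hnbX hw, fun hwT => ?_⟩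
      rw [mem_nb] at hw
      obtain ⟨-, a, ha, haw⟩ := hw
      have := hadj w (hT hwT) a ha haw
      rw [hcon] at this
      exact absurd this (notMem_empty _)
    have h1 := card_le_card hsub
    have h2 := hkc _ hfr1
    omega
  by_cases hUA : U G P A = P
  · exfalso
    have hPX : P ⊆ X := by
      rw [← hUA]
      exact hUnb.trans hnbX
    have h1 := outside_side G hkc hm hmin0 hPP0 hX hXc hne1 hne2 hdisj hn hPX
    have hX' : X = univ \ (D2 ∪ D1) := by rw [union_comm, hX]
    have h2 := outside_side G hkc hm hmin0 hPP0 hX' hXc hne2 hne1 hdisj.symm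
      (fun a ha b hb h => hn b hb a ha h.symm) hPX
    have h3 : (nb G P ∩ D1).card + (nb G P ∩ D2).card ≤ (nb G P).card := by
      rw [← card_union_of_disjoint]
      · exact card_le_card (union_subset inter_subset_left inter_subset_left)
      · exact hdisj.mono inter_subset_right inter_subset_right
    obtain ⟨v, hv⟩ := hPne
    have h4 := outside_deg G hv
    have h5 := hd v
    omega
  · refine ⟨A, inter_subset_left, hUA, ?_⟩
    have hss : U G P A ⊂ P := hUP.ssubset_of_ne hUA
    have hUne : (U G P A).Nonempty := by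
      obtain ⟨a, ha⟩ := hAne
      have ha' := (mem_inter.1 ha).1
      rw [mem_nb] at ha'
      obtain ⟨-, u, hu, hua⟩ := ha'
      exact ⟨u, by rw [mem_U]; exact ⟨hu, a, ha, hua.symm⟩⟩
    have hFne : (P \ U G P A).Nonempty := by
      rw [sdiff_nonempty]
      exact fun h => hUA (Subset.antisymm hUP h)
    have hFss : P \ U G P A ⊂ P := by
      refine sdiff_subset.ssubset_of_ne ?_
      intro h
      obtain ⟨u, hu⟩ := hUne
      have h1 : u ∈ P \ U G P A := by rw [h]; exact hUP hu
      exact (mem_sdiff.1 h1).2 hu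
    have h1 := hPmin _ hFss hFne
    have h2 : nb G (P \ U G P A) ⊆ U G P A ∪ (nb G P \ A) := by
      intro w hw
      rw [mem_nb] at hw
      obtain ⟨hw1, v, hv, hvw⟩ := hw
      rw [mem_sdiff] at hv
      rw [mem_union, mem_sdiff]
      by_cases hwP : w ∈ P
      · left
        by_contra hc
        exact hw1 (mem_sdiff.2 ⟨hwP, hc⟩)
      · right
        refine ⟨by rw [mem_nb]; exact ⟨hwP, v, hv.1, hvw⟩, fun hwA => ?_⟩
        apply hv.2
        rw [mem_U]
        exact ⟨hv.1, w, hwA, hvw.symm⟩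
    have h3 := card_le_card h2
    have h4 := card_union_le (U G P A) (nb G P \ A)
    have h5 : (nb G P \ A).card + A.card = (nb G P).card :=
      card_sdiff_add_card_eq_card inter_subset_left
    have h6 : A.card + 1 ≤ (U G P A).card := by omega
    have hE : (D1 \ nb G P).Nonempty := by
      by_contra hc
      rw [not_nonempty_iff_eq_empty, sdiff_eq_empty_iff_subset] at hc
      have h7 : A = D1 := inter_eq_right.2 hc
      have h8 := hmin0 _ hfr1 (lt_of_le_of_lt (card_le_card hnbX) hXc)
      have h9 := card_le_card hPP0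
      have h10 := card_le_card hUP
      rw [h7] at h6
      rw [h7] at h10
      omega
    have hfr2 : Frag G (D1 \ nb G P) := outside_frag G hE sdiff_subset hne2 hdisj hn
    have h7 := hkc _ hfr2
    have h8 : nb G (D1 \ nb G P) ⊆ A ∪ (nb G D1 \ P) := by
      intro w hw
      rw [mem_nb] at hw
      obtain ⟨hw1, v, hv, hvw⟩ := hw
      rw [mem_sdiff] at hv
      have hwP : w ∉ P := by
        intro hwP
        apply hv.2
        rw [mem_nb]
        exact ⟨fun h => hPD v h hv.1, w, hwP, hvw.symm⟩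
      rw [mem_union, mem_sdiff, mem_nb]
      by_cases hwD : w ∈ D1
      · left
        rw [hA, mem_inter]
        refine ⟨?_, hwD⟩
        by_contra hc
        exact hw1 (mem_sdiff.2 ⟨hwD, hc⟩)
      · right
        exact ⟨⟨hwD, v, hv.1, hvw⟩, hwP⟩
    have h9 := card_le_card h8
    have h10 := card_union_le A (nb G D1 \ P)
    have h11 : (nb G D1 \ P) ∪ (U G P A \ T) ⊆ X \ T := by
      apply union_subset
      · intro w hw
        rw [mem_sdiff] at hw
        rw [mem_sdiff]
        exact ⟨hnbX hw.1, fun h => hw.2 (hT h)⟩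
      · exact sdiff_subset_sdiff (hUnb.trans hnbX) (Subset.refl _)
    have h12 := card_le_card h11
    rw [card_union_of_disjoint] at h12
    · omega
    · rw [disjoint_left]
      intro w hw hw'
      exact (mem_sdiff.1 hw).2 (hUP (mem_sdiff.1 hw').1)

end Outside

end Pool.Agent.Lib_MP_f6e057_co
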