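import Pool.Agent.Lib_MP_f6e057_co.Basic
import Pool.Agent.Lib_MP_f6e057_co.Crossing
import Pool.Agent.Lib_MP_f6e057_co.Outside
import Pool.Agent.Lib_MP_f6e057_co.Greedy
import Pool.Agent.Lib_MP_f6e057_co.Embed

namespace Pool.Agent.Lib_MP_f6e057_co

open Finset

set_option linter.unusedSectionVars false

section Assembly
variable {V : Type*} [Fintype V] [DecidableEq V] (G : SimpleGraph V) [DecidableRel G.Adj]

theorem Sep.symm {k : ℕ} {T D1 D2 : Finset V} (h : Sep G k T D1 D2) : Sep G k T D2 D1 where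
  ne1 := h.ne2
  ne2 := h.ne1
  disj := h.disj.symm
  disj1 := h.disj2
  disj2 := h.disj1
  nadj := fun a ha b hb hab => h.nadj b hb a ha hab.symm
  small := by
    have := h.small
    rwa [union_comm D2 D1]

theorem Sep.frag {k : ℕ} {T D1 D2 : Finset V} (h : Sep G k T D1 D2) :
    Frag G D1 ∧ (nb G D1).card < k + T.card := by
  constructor
  · obtain ⟨v, hv⟩ := h.ne2
    refine ⟨h.ne1, v, fun h1 => disjoint_left.mp h.disj h1 hv, fun h1 => ?_⟩
    rw [mem_nb] at h1
    obtain ⟨_, u, hu, ha⟩ := h1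
    exact h.nadj u hu v hv ha
  · have hsub : nb G D1 ⊆ (univ \ (D1 ∪ D2 ∪ T)) ∪ T := by
      intro v hv
      rw [mem_nb] at hv
      obtain ⟨hv1, u, hu, ha⟩ := hv
      have hv2 : v ∉ D2 := fun h2 => h.nadj u hu v h2 ha
      by_cases hvT : v ∈ T
      · exact mem_union_right _ hvT
      · apply mem_union_left
        simp [hv1, hv2, hvT]
    have h1 := card_le_card hsub
    have h2 := card_union_le (univ \ (D1 ∪ D2 ∪ T)) T
    have h3 := h.small
    omega

theorem assembly {W : Type} [Fintype W] (T : SimpleGraph W) (hT : T.IsTree) {k : ℕ}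
    (hk : 1 ≤ k) (hG : KConnected k G)
    (hd : 3 * k + 15 * Fintype.card W ≤ 2 * G.minDegree + 12) :
    ∃ φ : W ↪ V, (∀ u v, T.Adj u v → G.Adj (φ u) (φ v)) ∧
      KConnected k (G.induce (Set.range φ)ᶜ) := by
  classical
  have hW : Nonempty W := hT.connected.nonempty
  have hm : 1 ≤ Fintype.card W := Fintype.card_pos
  obtain ⟨m, hmW⟩ : ∃ m, m = Fintype.card W := ⟨_, rfl⟩
  rw [← hmW] at hd hm
  have hkV : k < Fintype.card V := by
    have := hG.1
    rwa [Nat.card_eq_fintype_card] at this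
  have hV : Nonempty V := Fintype.card_pos_iff.mp (by omega)
  obtain ⟨v0⟩ := hV
  obtain ⟨d, hdd⟩ : ∃ d, d = G.minDegree := ⟨_, rfl⟩
  have hdeg : ∀ v, d ≤ G.degree v := fun v => hdd ▸ G.minDegree_le_degree v
  rw [← hdd] at hd
  have hdV : d < Fintype.card V := lt_of_le_of_lt (hdeg v0) (G.degree_lt_card_verts v0)
  have hkm : k + m < Fintype.card V := by omega
  have hkc : ∀ F, Frag G F → k ≤ (nb G F).card := fun F hF => frag_of_kconn G hG hF
  -- it is enough to find a good embedding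
  suffices hmain : ∃ φ : W ↪ V, (∀ u v, T.Adj u v → G.Adj (φ u) (φ v)) ∧
      ∀ D1 D2 : Finset V, ¬ Sep G k (univ.map φ) D1 D2 by
    obtain ⟨φ, h1, h2⟩ := hmain
    refine ⟨φ, h1, ?_⟩
    have := kconn_of_noSep G (k := k) (T := univ.map φ) (by rw [card_map, card_univ, ← hmW]; exact hkm) h2
    have hr : ((univ.map φ : Finset V) : Set V) = Set.range φ := by simp [coe_map]
    rw [hr] at this
    exact this
  by_cases hfr : ∀ F, Frag G F → k + m ≤ (nb G F).card
  · obtain ⟨φ, h1, -⟩ := embed_tree G (fun _ => True) ⟨v0, trivial⟩ m (by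
      intro Y u _ hY hu
      by_contra hcon
      push Not at hcon
      have hsub : G.neighborFinset u ⊆ Y.erase u := by
        intro w hw
        rw [SimpleGraph.mem_neighborFinset] at hw
        rw [mem_erase]
        refine ⟨hw.ne', ?_⟩
        by_contra hwY
        exact hcon w hwY hw
      have h2 := card_le_card hsub
      rw [SimpleGraph.card_neighborFinset_eq_degree, card_erase_of_mem hu] at h2
      have h3 := hdeg u
      omega) m W T hT hmW.symm le_rfl
    refine ⟨φ, h1, fun D1 D2 hsep => ?_⟩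
    obtain ⟨h2, h3⟩ := hsep.frag
    have h4 := hfr D1 h2
    rw [card_map, card_univ, ← hmW] at h3
    omega
  · push Not at hfr
    obtain ⟨F0, hF0, hF0'⟩ := hfr
    obtain ⟨P0, hP0m, hP0min⟩ := exists_min_image
      (univ.filter (fun F : Finset V => Frag G F ∧ (nb G F).card < k + m)) card
      ⟨F0, by simp [hF0, hF0']⟩
    simp only [mem_filter, mem_univ, true_and] at hP0m hP0min
    obtain ⟨hP0f, hP0c⟩ := hP0m
    obtain ⟨P, hPm, hPmin⟩ := exists_min_image
      (univ.filter (fun F : Finset V => F ⊆ P0 ∧ Frag G F ∧ (nb G F).card + 2 ≤ (nb G P0).card + 2 * m)) card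
      ⟨P0, by simp only [mem_filter, mem_univ, true_and]; exact ⟨subset_rfl, hP0f, by omega⟩⟩
    simp only [mem_filter, mem_univ, true_and] at hPm hPmin
    obtain ⟨hPP0, hPf, hPle⟩ := hPm
    have hPmin1 : ∀ F, F ⊂ P → F.Nonempty → (nb G P0).card + 2 * m < (nb G F).card + 2 := by
      intro F hF hFne
      by_contra hcon
      push Not at hcon
      have := hPmin F ⟨hF.1.trans hPP0, Frag.mono G hFne hF.1 hPf, hcon⟩
      have h2 := card_lt_card hF
      omega
    have hPmin2 : ∀ F, F ⊂ P → F.Nonempty → (nb G P).card < (nb G F).card := by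
      intro F hF hFne
      have := hPmin1 F hF hFne
      omega
    have hmin0 : ∀ F, Frag G F → (nb G F).card < k + m → P0.card ≤ F.card :=
      fun F h1 h2 => hP0min F ⟨h1, h2⟩
    have hdp : 3 * (nb G P).card + 6 * m ≤ 2 * d + 3 := by omega
    have hPpos := hkc P hPf
    obtain ⟨Good, hg1, hg2, hg3⟩ := greedy G hm hPf.1 (by omega) hPmin2 hdeg hdp
    obtain ⟨φ, h1, h2⟩ := embed_tree G Good hg1 m hg2 m W T hT hmW.symm le_rfl
    obtain ⟨hTP, hTU⟩ := hg3 _ h2
    have hTm : (univ.map φ).card = m := by rw [card_map, card_univ, ← hmW]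
    refine ⟨φ, h1, fun D1 D2 hsep => ?_⟩
    have hdp2 : 3 * (nb G P).card + 2 * m < 2 * d + 4 := by omega
    rcases crossing G hkc hm hP0f hP0c hmin0 hPP0 hPle hPmin1 hTP hTm hsep with hD | hD
    · obtain ⟨A, hA1, hA2, hA3⟩ := outside G hkc hm hmin0 hPP0 hPf.1 hPmin2 hdeg hdp2 hTP hTm hsep hD
      exact absurd (hTU A hA1 hA2) (by omega)
    · obtain ⟨A, hA1, hA2, hA3⟩ := outside G hkc hm hmin0 hPP0 hPf.1 hPmin2 hdeg hdp2 hTP hTm
        (hsep.symm G) hD
      exact absurd (hTU A hA1 hA2) (by omega)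

end Assembly

end Pool.Agent.Lib_MP_f6e057_co
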