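import Mathlib

namespace Pool.Agent.Lib_MP_f6e057_co

open Finset

/-- `G` is `k`-connected: it has more than `k` vertices, and deleting any fewer than `k`
vertices leaves a connected graph.  (Used for finite graphs only; if `V` is infinite then
`Nat.card V = 0` and the property is false.) -/
def KConnected {V : Type*} (k : ℕ) (G : SimpleGraph V) : Prop :=
  k < Nat.card V ∧ ∀ S : Set V, S.ncard < k → (G.induce Sᶜ).Connected

section
variable {V : Type*} [Fintype V] [DecidableEq V] (G : SimpleGraph V) [DecidableRel G.Adj]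

/-- the set of neighbours of `F` outside `F` -/
def nb (F : Finset V) : Finset V := univ.filter fun v => v ∉ F ∧ ∃ u ∈ F, G.Adj u v

/-- the vertices of `P` with a neighbour in `A` -/
def U (P A : Finset V) : Finset V := P.filter fun v => ∃ a ∈ A, G.Adj a v

/-- a fragment: nonempty, and some vertex is neither in `F` nor a neighbour of `F` -/
def Frag (F : Finset V) : Prop := F.Nonempty ∧ ∃ v, v ∉ F ∧ v ∉ nb G F

/-- a witness that deleting `T` destroys `k`-connectedness: two nonempty sides `D1`, `D2`
without edges between them, and fewer than `k` further vertices outside `T` -/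
structure Sep (k : ℕ) (T D1 D2 : Finset V) : Prop where
  ne1 : D1.Nonempty
  ne2 : D2.Nonempty
  disj : Disjoint D1 D2
  disj1 : Disjoint D1 T
  disj2 : Disjoint D2 T
  nadj : ∀ a ∈ D1, ∀ b ∈ D2, ¬ G.Adj a b
  small : (univ \ (D1 ∪ D2 ∪ T)).card < k

theorem mem_nb {F : Finset V} {v : V} : v ∈ nb G F ↔ v ∉ F ∧ ∃ u ∈ F, G.Adj u v := by
  simp [nb]

theorem mem_U {P A : Finset V} {v : V} : v ∈ U G P A ↔ v ∈ P ∧ ∃ a ∈ A, G.Adj a v := by
  simp [U]

end

end Pool.Agent.Lib_MP_f6e057_co
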