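import Pool.Agent.Lib_MP_f6e057_co.Stages

/-!
# The final contradiction in the exchange lemma
-/

set_option autoImplicit false
set_option linter.unusedSectionVars false

namespace Pool.Agent.Lib_MP_f6e057_co.Exch

open Finset

section Final

variable {W : Type*} [Fintype W] [DecidableEq W] {T : SimpleGraph W} {y : W} {Rt : Rooted T y}
variable {V : Type*} [Fintype V] [DecidableEq V] {G : SimpleGraph V} [DecidableRel G.Adj]
variable {Z : Finset V} {φ : W → V} {w0 : W}

/-- the case of a core with an interior vertex -/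
theorem Ctx.final (C : Ctx Rt G Z φ w0) (hI : w0 ∈ intR Rt Z φ w0) : False := by
  classical
  obtain ⟨g1, hPE1, hg1K, hg1I⟩ := C.stage1 hI
  have hsubD : ∀ a ∈ intR Rt Z φ w0, a ∈ Desc Rt w0 := fun a ha => ((mem_intR Rt Z φ w0).1 ha).1
  set I := intR Rt Z φ w0 with hIdef
  set F := FF Rt G Z φ w0 with hFdef
  -- tops, pending tops
  let Top : W → Prop := fun w => w ∈ Desc Rt w0 ∧ w ∉ I ∧ Rt.par w ∈ I
  let PT : W → Prop := fun w => Top w ∧ ¬ G.Adj (g1 (Rt.par w)) (φ w)
  let St : Finset W := univ.filter fun a => ∃ w, Top w ∧ G.Adj (g1 (Rt.par w)) (φ w) ∧ a ∈ Desc Rt w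
  let Pd : Finset W := univ.filter fun a => ∃ w, PT w ∧ a ∈ Desc Rt w
  have mem_St : ∀ a, a ∈ St ↔ ∃ w, Top w ∧ G.Adj (g1 (Rt.par w)) (φ w) ∧ a ∈ Desc Rt w := by
    intro a; simp [St]
  have mem_Pd : ∀ a, a ∈ Pd ↔ ∃ w, PT w ∧ a ∈ Desc Rt w := by
    intro a; simp [Pd]
  -- the descendants of a top avoid `I`
  have topI : ∀ w, Top w → ∀ a ∈ Desc Rt w, a ∉ I := by
    intro w hw a ha haI
    exact hw.2.1 (C.intR_anc haI hw.1 ha)
  have topD : ∀ w, Top w → ∀ a ∈ Desc Rt w, a ∈ Desc Rt w0 := by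
    intro w hw a ha
    exact desc_trans Rt hw.1 ha
  have topy : ∀ w, Top w → w ≠ y := by
    intro w hw h
    exact C.y_notMem (h ▸ hw.1)
  have topuniq : ∀ w w', Top w → Top w' → ∀ a, a ∈ Desc Rt w → a ∈ Desc Rt w' → w = w' := by
    intro w w' hw hw' a ha ha'
    rcases desc_comparable Rt ha ha' with h | h
    · by_contra hne
      exact topI w' hw' _ (par_mem Rt h hne) hw.2.2
    · by_contra hne
      exact topI w hw _ (par_mem Rt h (fun h' => hne h'.symm)) hw'.2.2
  have extop : ∀ a, a ∈ Desc Rt w0 → a ∉ I → ∃ w, Top w ∧ a ∈ Desc Rt w := by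
    intro a ha haI
    obtain ⟨n, hn⟩ := (mem_Desc Rt).1 ha
    have key : ∀ (n : ℕ) (a : W), Rt.par^[n] a = w0 → a ∉ I → ∃ w, Top w ∧ a ∈ Desc Rt w := by
      intro n
      induction n with
      | zero =>
        intro a h haI
        exfalso
        apply haI
        simp only [Function.iterate_zero, id_eq] at h
        rw [h]; exact hI
      | succ n ih =>
        intro a h haI
        have haD : a ∈ Desc Rt w0 := (mem_Desc Rt).2 ⟨n + 1, h⟩
        rw [Function.iterate_succ_apply] at h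
        by_cases hp : Rt.par a ∈ I
        · exact ⟨a, ⟨haD, haI, hp⟩, self_mem Rt a⟩
        · obtain ⟨w, hw1, hw2⟩ := ih (Rt.par a) h hp
          exact ⟨w, hw1, child_mem Rt hw2⟩
    exact key n a hn haI
  have hStPd : ∀ a, a ∈ St → a ∉ Pd := by
    intro a ha ha'
    obtain ⟨w, h1, h2, h3⟩ := (mem_St a).1 ha
    obtain ⟨w', h4, h5⟩ := (mem_Pd a).1 ha'
    have := topuniq w w' h1 h4.1 a h3 h5
    subst this
    exact h4.2 h2
  have hdecomp : ∀ a, a ∉ Desc Rt w0 ∨ a ∈ I ∨ a ∈ St ∨ a ∈ Pd := by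
    intro a
    by_cases h1 : a ∈ Desc Rt w0
    · by_cases h2 : a ∈ I
      · exact Or.inr (Or.inl h2)
      · obtain ⟨w, hw1, hw2⟩ := extop a h1 h2
        by_cases h3 : G.Adj (g1 (Rt.par w)) (φ w)
        · exact Or.inr (Or.inr (Or.inl ((mem_St a).2 ⟨w, hw1, h3, hw2⟩)))
        · exact Or.inr (Or.inr (Or.inr ((mem_Pd a).2 ⟨w, ⟨hw1, h3⟩, hw2⟩)))
    · exact Or.inl h1
  have hPdI : ∀ a ∈ Pd, a ∉ I := by
    intro a ha
    obtain ⟨w, h1, h2⟩ := (mem_Pd a).1 ha
    exact topI w h1.1 a h2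
  have hStI : ∀ a ∈ St, a ∉ I := by
    intro a ha
    obtain ⟨w, h1, _, h2⟩ := (mem_St a).1 ha
    exact topI w h1 a h2
  have hPdD : ∀ a ∈ Pd, a ∈ Desc Rt w0 := by
    intro a ha
    obtain ⟨w, h1, h2⟩ := (mem_Pd a).1 ha
    exact topD w h1.1 a h2
  have hStD : ∀ a ∈ St, a ∈ Desc Rt w0 := by
    intro a ha
    obtain ⟨w, h1, _, h2⟩ := (mem_St a).1 ha
    exact topD w h1 a h2
  have hg1pe : ∀ a, a ∉ Desc Rt w0 ∨ a ∈ I → a ∈ univ \ Desc Rt w0 ∪ I := by
    intro a ha
    rw [mem_union, mem_sdiff]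
    rcases ha with h | h
    · exact Or.inl ⟨mem_univ _, h⟩
    · exact Or.inr h
  -- stage 2
  let P2 : Finset W := univ.filter fun a => a ∉ Pd
  have mem_P2 : ∀ a, a ∈ P2 ↔ a ∉ Pd := by intro a; simp [P2]
  let g2 : W → V := fun a => if a ∈ I then g1 a else φ a
  have g2I : ∀ a ∈ I, g2 a = g1 a := by intro a ha; simp [g2, ha]
  have g2n : ∀ a, a ∉ I → g2 a = φ a := by intro a ha; simp [g2, ha]
  have hPE2 : PE Rt G P2 g2 := by
    refine ⟨?_, ?_, ?_, ?_⟩
    · rw [mem_P2]
      exact fun h => C.y_notMem (hPdD y h)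
    · intro a ha
      rw [mem_P2] at *
      intro h
      apply ha
      obtain ⟨w, h1, h2⟩ := (mem_Pd _).1 h
      exact (mem_Pd a).2 ⟨w, h1, child_mem Rt h2⟩
    · intro a ha b hb hab
      by_cases haI : a ∈ I
      · by_cases hbI : b ∈ I
        · rw [g2I a haI, g2I b hbI] at hab
          exact hPE1.inj a (hg1pe a (Or.inr haI)) b (hg1pe b (Or.inr hbI)) hab
        · rw [g2I a haI, g2n b hbI] at hab
          exact absurd hab.symm (hg1I a haI b)
      · by_cases hbI : b ∈ I
        · rw [g2n a haI, g2I b hbI] at hab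
          exact absurd hab (hg1I b hbI a)
        · rw [g2n a haI, g2n b hbI] at hab
          exact C.copy.1 hab
    · intro a ha hay
      rw [mem_P2] at ha
      by_cases haI : a ∈ I
      · have h1 := hPE1.adj a (hg1pe a (Or.inr haI)) hay
        rw [g2I a haI]
        by_cases hw : a = w0
        · have hyI : y ∉ I := fun h => C.y_notMem (hsubD y h)
          rw [hw, C.par_w0] at h1 ⊢
          rw [g2n y hyI]
          rw [hg1K y C.y_notMem] at h1
          exact h1
        · rw [g2I _ (C.intR_par haI hw)]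
          exact h1
      · rw [g2n a haI]
        by_cases hpI : Rt.par a ∈ I
        · -- `a` is a staying top
          have haD : a ∈ Desc Rt w0 := child_mem Rt (hsubD _ hpI)
          have htop : Top a := ⟨haD, haI, hpI⟩
          rw [g2I _ hpI]
          by_contra hn
          exact ha ((mem_Pd a).2 ⟨a, ⟨htop, hn⟩, self_mem Rt a⟩)
        · rw [g2n _ hpI]
          exact C.copy.2 _ _ (Rt.adj_par a hay)
  -- leaf roles
  let LP : Finset W := Pd.filter fun l => ∀ b, b ≠ y → Rt.par b ≠ l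
  have mem_LP : ∀ a, a ∈ LP ↔ a ∈ Pd ∧ ∀ b, b ≠ y → Rt.par b ≠ a := by intro a; simp [LP]
  -- the avoided roles
  let Ar : Finset W := univ.filter fun b =>
    (PT b ∧ (φ b ∉ Z ∨ ∃ x ∈ F, G.Adj (φ b) x)) ∨
    (PT (Rt.par b) ∧ φ (Rt.par b) ∈ Z ∧ ¬ ∃ x ∈ F, G.Adj (φ (Rt.par b)) x)
  have mem_Ar : ∀ b, b ∈ Ar ↔ (PT b ∧ (φ b ∉ Z ∨ ∃ x ∈ F, G.Adj (φ b) x)) ∨
    (PT (Rt.par b) ∧ φ (Rt.par b) ∈ Z ∧ ¬ ∃ x ∈ F, G.Adj (φ (Rt.par b)) x) := by
    intro b; simp [Ar]
  -- the pending top above an avoided role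
  have hArTop : ∀ b ∈ Ar, ∃ w, PT w ∧ b ∈ Desc Rt w := by
    intro b hb
    rcases (mem_Ar b).1 hb with h | h
    · exact ⟨b, h.1, self_mem Rt b⟩
    · exact ⟨Rt.par b, h.1, child_mem Rt (self_mem Rt _)⟩
  have hArPd : ∀ b ∈ Ar, ∀ a ∈ Desc Rt b, a ∈ Pd := by
    intro b hb a ha
    obtain ⟨w, h1, h2⟩ := hArTop b hb
    exact (mem_Pd a).2 ⟨w, h1, desc_trans Rt h2 ha⟩
  have anti : ∀ b ∈ Ar, ∀ b' ∈ Ar, b ∈ Desc Rt b' → b = b' := by
    intro b hb b' hb' hbb
    by_contra hne
    have hpb := par_mem Rt hbb hne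
    obtain ⟨w', hw'1, hw'2⟩ := hArTop b' hb'
    rcases (mem_Ar b).1 hb with h | h
    · -- `b` is a pending top, its parent is in `I`, but it is below `b'`
      exact topI w' hw'1.1 _ (desc_trans Rt hw'2 hpb) h.1.1.2.2
    · -- `par b` is a pending top
      have hww : Rt.par b = w' := topuniq _ _ h.1.1 hw'1.1 (Rt.par b) (self_mem Rt _)
        (desc_trans Rt hw'2 hpb)
      have hb'w : b' = w' := by
        rw [hww] at hpb
        exact desc_antisymm Rt hpb hw'2
      rcases (mem_Ar b').1 hb' with h' | h'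
      · rw [hb'w, ← hww] at h'
        rcases h'.2 with h2 | h2
        · exact h2 h.2.1
        · exact h.2.2 h2
      · -- parent of `b'` is a pending top, so `b'` is not a top
        have h3 : Rt.par b' ∈ I := by rw [hb'w]; exact hw'1.1.2.2
        exact h'.1.1.2.1 h3
  have hcount : Ar.card ≤ LP.card := by
    have hex := fun a => exists_childless Rt a
    choose l hl1 hl2 using hex
    apply card_le_card_of_injOn l
    · intro b hb
      have hb : b ∈ Ar := hb
      exact (mem_LP _).2 ⟨hArPd b hb _ (hl1 b), hl2 b⟩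
    · intro b hb b' hb' hbb
      have hb : b ∈ Ar := hb
      have hb' : b' ∈ Ar := hb'
      have h1 := hl1 b
      have h2 := hl1 b'
      rw [← hbb] at h2
      rcases desc_comparable Rt h1 h2 with h | h
      · exact anti b hb b' hb' h
      · exact (anti b' hb' b hb h).symm
  -- positions of parents of pending roles are in F
  have hparF : ∀ (g : W → V) (a : W), a ∈ Pd → (∀ b ∈ P2, g b = g2 b) →
      (∀ b, b ∉ P2 → b = Rt.par a → g b ∈ F) → g (Rt.par a) ∈ F := by
    intro g a ha hg hgF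
    obtain ⟨w, hw1, hw2⟩ := (mem_Pd a).1 ha
    by_cases haw : a = w
    · subst haw
      have hpI := hw1.1.2.2
      have hpP2 : Rt.par a ∈ P2 := by
        rw [mem_P2]; exact fun h => hPdI _ h hpI
      rw [hg _ hpP2, g2I _ hpI]
      exact cl0 (hg1I _ hpI)
    · have hpPd : Rt.par a ∈ Pd := (mem_Pd _).2 ⟨w, hw1, par_mem Rt hw2 haw⟩
      exact hgF _ (by rw [mem_P2]; exact fun h => h hpPd) rfl
  -- stage 3
  have hQ3 : ∀ a ∈ univ \ LP, Rt.par a ∈ univ \ LP := by
    intro a ha
    rw [mem_sdiff] at *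
    refine ⟨mem_univ _, fun h => ?_⟩
    have h1 := (mem_LP _).1 h
    by_cases hay : a = y
    · rw [hay, Rt.par_root] at h1
      exact C.y_notMem (hPdD y h1.1)
    · exact h1.2 a hay rfl
  have hP2Q : P2 ⊆ univ \ LP := by
    intro a ha
    rw [mem_sdiff]
    exact ⟨mem_univ _, fun h => (mem_P2 a).1 ha ((mem_LP a).1 h).1⟩
  obtain ⟨g3, hPE3, hg3a, hg3b⟩ := grow Rt G hP2Q hQ3 hPE2 {x | x ∈ F ∧ ∀ b ∈ Ar, φ b ≠ x} (by
    intro P g hP0 hPQ hPE hg0 hgF a haQ haP hpa
    have haPd : a ∈ Pd := by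
      by_contra h
      exact haP (hP0 ((mem_P2 a).2 h))
    have haLP : a ∉ LP := (mem_sdiff.1 haQ).2
    have hxF : g (Rt.par a) ∈ F := by
      apply hparF g a haPd hg0
      intro b hb hba
      rw [hba] at hb ⊢
      exact (hgF _ hpa hb).1
    set S : Finset V := P.image g ∪ Ar.image φ with hS
    have hSc : S.card ≤ G.degree (g (Rt.par a)) := by
      refine le_trans ?_ (C.FF_deg hxF)
      have k1 : P ⊆ (univ \ LP).erase a := by
        intro b hb
        rw [mem_erase]
        exact ⟨fun h => haP (h ▸ hb), hPQ hb⟩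
      have k2 := card_le_card k1
      rw [card_erase_of_mem haQ, card_sdiff_of_subset (subset_univ _), card_univ] at k2
      have k3 : 0 < (univ \ LP).card := card_pos.2 ⟨a, haQ⟩
      rw [card_sdiff_of_subset (subset_univ _), card_univ] at k3
      have k4 : S.card ≤ (P.image g).card + (Ar.image φ).card := card_union_le _ _
      have k5 : (P.image g).card ≤ P.card := card_image_le
      have k6 : (Ar.image φ).card ≤ Ar.card := card_image_le
      omega
    obtain ⟨v, hv1, hv2⟩ := exists_nbr G (mem_union_left _ (mem_image_of_mem g hpa)) hSc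
    rw [mem_union, not_or] at hv2
    have hvP : ∀ b ∈ P, g b ≠ v := by
      intro b hb hbv
      apply hv2.1
      rw [← hbv]; exact mem_image_of_mem g hb
    have hvA : ∀ b ∈ Ar, φ b ≠ v := by
      intro b hb hbv
      apply hv2.2
      rw [← hbv]; exact mem_image_of_mem φ hb
    refine ⟨v, ⟨?_, hvA⟩, hvP, hv1⟩
    -- `v` is in `F`
    by_cases hvφ : ∀ b, φ b ≠ v
    · exact cl0 hvφ
    · push Not at hvφ
      obtain ⟨b, hb⟩ := hvφ
      have hbI : b ∉ I := by
        intro hbI
        apply C.intR_nadj hbI hxF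
        rw [hb]; exact hv1.symm
      have hbPd : b ∈ Pd := by
        by_contra h
        have h1 : b ∈ P2 := (mem_P2 b).2 h
        apply hvP b (hP0 h1)
        rw [hg0 b h1, g2n b hbI, hb]
      have hbAr : b ∉ Ar := fun h => hvA b h hb
      obtain ⟨w, hw1, hw2⟩ := (mem_Pd b).1 hbPd
      have hbD := hPdD b hbPd
      -- children of roles below a top are not core roles unless the parent is a core role
      have hchild : ∀ u, Rt.par u ∈ Desc Rt w → φ u ∈ Z → False := by
        intro u hu huZ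
        have h1 : Rt.par u ∈ Desc Rt w0 := topD w hw1.1 _ hu
        have h2 : φ (Rt.par u) ∈ Z := C.anc h1 (child_mem Rt (self_mem Rt _)) huZ
        apply topI w hw1.1 _ hu
        exact (mem_intR Rt Z φ w0).2 ⟨h1, h2, u, rfl, huZ⟩
      by_cases hbw : b = w
      · -- a pending top that is not avoided: a core leaf without freeable neighbours
        subst hbw
        exfalso
        apply hbAr
        rw [mem_Ar]
        left
        refine ⟨hw1, Or.inr ⟨g (Rt.par a), hxF, ?_⟩⟩
        rw [hb]; exact hv1.symm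
      · have hpw : Rt.par b ∈ Desc Rt w := par_mem Rt hw2 hbw
        have hbZ : φ b ∉ Z := fun h => hchild b hpw h
        rw [← hb]
        by_cases hpbZ : φ (Rt.par b) ∈ Z
        · have hpbw : Rt.par b = w := by
            by_contra hne
            have h1 := par_mem Rt hpw hne
            exact hchild (Rt.par b) h1 hpbZ
          by_cases hex : ∃ x ∈ F, G.Adj (φ (Rt.par b)) x
          · obtain ⟨x, hx1, hx2⟩ := hex
            exact cl2 hbD hbZ hx1 hx2
          · exfalso
            apply hbAr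
            rw [mem_Ar]
            right
            exact ⟨by rw [hpbw]; exact hw1, hpbZ, hex⟩
        · exact cl1 hbD hbZ hpbZ)
  -- stage 4
  obtain ⟨g4, hPE4, hg4a, hg4b⟩ := grow Rt G (subset_univ (univ \ LP)) (fun a _ => mem_univ _) hPE3
    {x | ∀ z ∈ I, φ z ≠ x} (by
    intro P g hP0 _ hPE hg0 hgF a _ haP hpa
    have haLP : a ∈ LP := by
      by_contra h
      exact haP (hP0 (mem_sdiff.2 ⟨mem_univ _, h⟩))
    have haPd : a ∈ Pd := ((mem_LP a).1 haLP).1
    have hay : a ≠ y := fun h => C.y_notMem (h ▸ hPdD a haPd)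
    have hpQ : Rt.par a ∈ univ \ LP := by
      rw [mem_sdiff]
      exact ⟨mem_univ _, fun h => ((mem_LP _).1 h).2 a hay rfl⟩
    have hxF : g (Rt.par a) ∈ F := by
      rw [hg0 _ hpQ]
      apply hparF g3 a haPd hg3a
      intro b hb hba
      rw [hba] at hb ⊢
      exact (hg3b _ hpQ hb).1
    have hSc : (P.image g).card ≤ G.degree (g (Rt.par a)) := by
      refine le_trans ?_ (C.FF_deg hxF)
      exact card_image_le.trans (card_le_univ _)
    obtain ⟨v, hv1, hv2⟩ := exists_nbr G (mem_image_of_mem g hpa) hSc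
    refine ⟨v, ?_, ?_, hv1⟩
    · intro z hz hzv
      apply C.intR_nadj hz hxF
      rw [hzv]; exact hv1.symm
    · intro b hb hbv
      apply hv2
      rw [← hbv]; exact mem_image_of_mem g hb)
  -- contradiction
  obtain ⟨a, ha⟩ := C.cover g4 (hPE4.full Rt G) _ C.w0Z
  by_cases haQ : a ∈ univ \ LP
  · rw [hg4a a haQ] at ha
    by_cases haP2 : a ∈ P2
    · rw [hg3a a haP2] at ha
      by_cases haI : a ∈ I
      · rw [g2I a haI] at ha
        exact hg1I a haI w0 ha.symm
      · rw [g2n a haI] at ha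
        have := C.copy.1 ha
        rw [this] at haI
        exact haI hI
    · have h1 := (hg3b a haQ haP2).1
      rw [ha] at h1
      exact C.FF_notMem h1 C.w0Z
  · exact hg4b a (mem_univ _) haQ w0 hI ha.symm

end Final

end Pool.Agent.Lib_MP_f6e057_co.Exch
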