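import Pool.Agent.Lib_MP_f6e057_co.Partial

/-!
# The minimal branch and the freeable vertices (for the exchange lemma)
-/

set_option autoImplicit false
set_option linter.unusedSectionVars false

namespace Pool.Agent.Lib_MP_f6e057_co.Exch

open Finset

section Ctx

variable {W : Type*} [Fintype W] [DecidableEq W] {T : SimpleGraph W} {y : W} (Rt : Rooted T y)
variable {V : Type*} [Fintype V] [DecidableEq V] (G : SimpleGraph V) [DecidableRel G.Adj]
variable (Z : Finset V) (φ : W → V) (w0 : W)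

/-- the situation after choosing a copy, a vertex `y` with a missed neighbour and a branch
`Desc w0` at `y` that meets `Z`, with the branch as small as possible -/
structure Ctx : Prop where
  copy : IsCopy T G φ
  cover : ∀ ψ, IsCopy T G ψ → ∀ z ∈ Z, ∃ a, ψ a = z
  hdeg : ∀ v, v ∉ Z → Fintype.card W ≤ G.degree v
  w0y : w0 ≠ y
  par_w0 : Rt.par w0 = y
  ynb : ∃ c, G.Adj (φ y) c ∧ ∀ a, φ a ≠ c
  hZB : ∃ b ∈ Desc Rt w0, φ b ∈ Z
  hmin : ∀ ψ w, IsCopy T G ψ → w ≠ y → (∃ x, G.Adj (ψ (Rt.par w)) x ∧ ∀ a, ψ a ≠ x) →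
    (∃ b ∈ Desc Rt w, ψ b ∈ Z) → (Desc Rt w0).card ≤ (Desc Rt w).card

variable {Rt G Z φ w0}

theorem Ctx.fact0 (C : Ctx Rt G Z φ w0) {a : W} (ha : φ a ∉ Z) :
    ∃ c, G.Adj (φ a) c ∧ ∀ b, φ b ≠ c := by
  have h1 : (univ.image φ).card ≤ G.degree (φ a) := by
    have h2 : (univ.image φ).card ≤ (univ : Finset W).card := card_image_le
    rw [card_univ] at h2
    exact h2.trans (C.hdeg _ ha)
  obtain ⟨v, hv1, hv2⟩ := exists_nbr G (mem_image_of_mem φ (mem_univ a)) h1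
  refine ⟨v, hv1, fun b hb => hv2 ?_⟩
  rw [← hb]
  exact mem_image_of_mem φ (mem_univ b)

theorem Ctx.anc1 (C : Ctx Rt G Z φ w0) {r : W} (hr : r ∈ Desc Rt w0) (hZ : φ r ∈ Z)
    (hne : r ≠ w0) : φ (Rt.par r) ∈ Z := by
  by_contra h
  have hry : r ≠ y := by
    rintro rfl
    exact C.w0y (eq_root_of_root_mem Rt hr)
  have h1 := C.hmin φ r C.copy hry (C.fact0 h) ⟨r, self_mem Rt r, hZ⟩
  have h2 := desc_card_lt Rt hr hne
  omega

theorem Ctx.anc (C : Ctx Rt G Z φ w0) {a b : W} (hb : b ∈ Desc Rt w0) (hab : a ∈ Desc Rt b)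
    (hZ : φ a ∈ Z) : φ b ∈ Z := by
  have key : ∀ (n : ℕ) (a : W), Rt.par^[n] a = b → φ a ∈ Z → φ b ∈ Z := by
    intro n
    induction n with
    | zero => intro a h hZ; rw [← h]; exact hZ
    | succ n ih =>
      intro a h hZ
      rw [Function.iterate_succ_apply] at h
      by_cases hab : a = b
      · rw [← hab]; exact hZ
      · have hmem : a ∈ Desc Rt b := (mem_Desc Rt).2 ⟨n + 1, by
          rw [Function.iterate_succ_apply]; exact h⟩
        have ha : a ∈ Desc Rt w0 := desc_trans Rt hb hmem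
        have hne : a ≠ w0 := by
          rintro rfl
          exact hab (desc_antisymm Rt hb hmem)
        exact ih (Rt.par a) h (C.anc1 ha hZ hne)
  obtain ⟨n, hn⟩ := (mem_Desc Rt).1 hab
  exact key n a hn hZ

theorem Ctx.w0Z (C : Ctx Rt G Z φ w0) : φ w0 ∈ Z := by
  obtain ⟨b, hb, hbZ⟩ := C.hZB
  exact C.anc (self_mem Rt w0) hb hbZ

theorem Ctx.y_notMem (C : Ctx Rt G Z φ w0) : y ∉ Desc Rt w0 :=
  fun h => C.w0y (eq_root_of_root_mem Rt h)

variable (Rt G Z φ w0)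

/-- freeable vertices, level by level -/
def Fr : ℕ → Set V
  | 0 => {x | ∀ a, φ a ≠ x}
  | i + 1 => {x | x ∈ Fr i ∨ ∃ b ∈ Desc Rt w0, φ b ∉ Z ∧ x = φ b ∧
      (φ (Rt.par b) ∉ Z ∨ ∃ x' ∈ Fr i, G.Adj (φ (Rt.par b)) x')}

/-- the freeable vertices -/
def FF : Set V := {x | ∃ i, x ∈ Fr Rt G Z φ w0 i}

variable {Rt G Z φ w0}

theorem Ctx.witness (C : Ctx Rt G Z φ w0) : ∀ (i : ℕ) (x : V), x ∈ Fr Rt G Z φ w0 i →
    ∃ ψ, IsCopy T G ψ ∧ (∀ a, a ∉ Desc Rt w0 → ψ a = φ a) ∧ (∀ a, φ a ∈ Z → ψ a = φ a) ∧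
      (∀ u, u ∈ Desc Rt w0 → φ u ∉ Z → φ (Rt.par u) ∈ Z → φ u ∉ Fr Rt G Z φ w0 i → ψ u = φ u) ∧
      (∀ a, ψ a ≠ x) := by
  intro i
  induction i with
  | zero =>
    intro x hx
    exact ⟨φ, C.copy, fun _ _ => rfl, fun _ _ => rfl, fun _ _ _ _ _ => rfl, hx⟩
  | succ i ih =>
    intro x hx
    rcases hx with hx | ⟨b, hb, hbZ, rfl, hx⟩
    · obtain ⟨ψ, h1, h2, h3, h4, h5⟩ := ih x hx
      exact ⟨ψ, h1, h2, h3, fun u hu hu1 hu2 hu3 => h4 u hu hu1 hu2 (fun h => hu3 (Or.inl h)), h5⟩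
    · by_cases hxi : φ b ∈ Fr Rt G Z φ w0 i
      · obtain ⟨ψ, h1, h2, h3, h4, h5⟩ := ih _ hxi
        exact ⟨ψ, h1, h2, h3, fun u hu hu1 hu2 hu3 => h4 u hu hu1 hu2 (fun h => hu3 (Or.inl h)), h5⟩
      · have hxs : φ b ∈ Fr Rt G Z φ w0 (i + 1) := Or.inr ⟨b, hb, hbZ, rfl, hx⟩
        have hby : b ≠ y := fun h => C.y_notMem (h ▸ hb)
        -- a copy `ψ'` and a missed vertex `x'` adjacent to the parent
        have hex : ∃ ψ', IsCopy T G ψ' ∧ (∀ a, a ∉ Desc Rt w0 → ψ' a = φ a) ∧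
            (∀ a, φ a ∈ Z → ψ' a = φ a) ∧
            (∀ u, u ∈ Desc Rt w0 → φ u ∉ Z → φ (Rt.par u) ∈ Z → φ u ∉ Fr Rt G Z φ w0 i →
              ψ' u = φ u) ∧ ψ' b = φ b ∧
            ∃ x', (∀ a, ψ' a ≠ x') ∧ G.Adj (ψ' (Rt.par b)) x' := by
          by_cases hpZ : φ (Rt.par b) ∈ Z
          · rcases hx with hx | ⟨x', hx', hadj⟩
            · exact absurd hpZ hx
            · obtain ⟨ψ, h1, h2, h3, h4, h5⟩ := ih x' hx'
              exact ⟨ψ, h1, h2, h3, h4, h4 b hb hbZ hpZ hxi, x', h5, by rw [h3 _ hpZ]; exact hadj⟩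
          · obtain ⟨c, hc1, hc2⟩ := C.fact0 hpZ
            exact ⟨φ, C.copy, fun _ _ => rfl, fun _ _ => rfl, fun _ _ _ _ _ => rfl, rfl, c, hc2, hc1⟩
        obtain ⟨ψ', h1, h2, h3, h4, hψb, x', h5, h6⟩ := hex
        have hZ' : ∀ a, a ∈ Desc Rt b → ψ' a ∉ Z := by
          intro a ha haZ
          obtain ⟨a', ha'⟩ := C.cover φ C.copy _ haZ
          have h7 : ψ' a' = ψ' a := by
            rw [h3 a' (by rw [ha']; exact haZ), ha']
          have h8 := h1.1 h7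
          subst h8
          apply hbZ
          exact C.anc hb ha (by rw [ha']; exact haZ)
        obtain ⟨ψ, k1, k2, k3⟩ := reembed Rt G h1 hby h5 h6 (by
            apply C.hdeg
            intro hxZ
            obtain ⟨a, ha⟩ := C.cover ψ' h1 _ hxZ
            exact h5 a ha) (by
            intro v hv _
            apply C.hdeg
            intro hvZ
            obtain ⟨a, ha⟩ := C.cover ψ' h1 _ hvZ
            by_cases hab : a ∈ Desc Rt b
            · exact hZ' a hab (by rw [ha]; exact hvZ)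
            · exact hv a hab ha)
        have hout : ∀ a, φ a ∈ Z → a ∉ Desc Rt b := by
          intro a haZ hab
          exact hbZ (C.anc hb hab haZ)
        refine ⟨ψ, k1, ?_, ?_, ?_, ?_⟩
        · intro a ha
          rw [k2 a (fun h => ha (desc_trans Rt hb h)), h2 a ha]
        · intro a ha
          rw [k2 a (hout a ha), h3 a ha]
        · intro u hu hu1 hu2 hu3
          have hub : u ∉ Desc Rt b := by
            intro hub
            by_cases hue : u = b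
            · rw [hue] at hu3; exact hu3 hxs
            · exact hout _ hu2 (par_mem Rt hub hue)
          rw [k2 u hub, h4 u hu hu1 hu2 (fun h => hu3 (Or.inl h))]
        · intro a
          rw [← hψb]
          exact k3 a

/-- vertices of the core with a child in the core are not adjacent to freeable vertices -/
theorem Ctx.nadj (C : Ctx Rt G Z φ w0) {z z' : W} (hz : z ∈ Desc Rt w0) (hzZ : φ z ∈ Z)
    (hp : Rt.par z' = z) (hz' : φ z' ∈ Z) {x : V} (hx : x ∈ FF Rt G Z φ w0) :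
    ¬ G.Adj (φ z) x := by
  intro hadj
  obtain ⟨i, hi⟩ := hx
  obtain ⟨ψ, h1, _, h3, _, h5⟩ := C.witness i x hi
  have hz'D : z' ∈ Desc Rt w0 := child_mem Rt (by rw [hp]; exact hz)
  have hz'y : z' ≠ y := fun h => C.y_notMem (h ▸ hz'D)
  have hz'w : z' ≠ w0 := by
    rintro rfl
    rw [C.par_w0] at hp
    rw [← hp] at hz
    exact C.y_notMem hz
  have h6 := C.hmin ψ z' h1 hz'y ⟨x, by rw [hp, h3 z hzZ]; exact hadj, h5⟩
    ⟨z', self_mem Rt z', by rw [h3 z' hz']; exact hz'⟩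
  have h7 := desc_card_lt Rt hz'D hz'w
  omega

theorem Ctx.FF_notMem (C : Ctx Rt G Z φ w0) {x : V} (hx : x ∈ FF Rt G Z φ w0) : x ∉ Z := by
  obtain ⟨i, hi⟩ := hx
  obtain ⟨ψ, h1, _, _, _, h5⟩ := C.witness i x hi
  intro hxZ
  obtain ⟨a, ha⟩ := C.cover ψ h1 _ hxZ
  exact h5 a ha

theorem Ctx.FF_deg (C : Ctx Rt G Z φ w0) {x : V} (hx : x ∈ FF Rt G Z φ w0) :
    Fintype.card W ≤ G.degree x := C.hdeg x (C.FF_notMem hx)

theorem cl0 {x : V} (hx : ∀ a, φ a ≠ x) : x ∈ FF Rt G Z φ w0 := ⟨0, hx⟩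

theorem cl1 {b : W} (hb : b ∈ Desc Rt w0) (hbZ : φ b ∉ Z) (h : φ (Rt.par b) ∉ Z) :
    φ b ∈ FF Rt G Z φ w0 := ⟨1, Or.inr ⟨b, hb, hbZ, rfl, Or.inl h⟩⟩

theorem cl2 {b : W} (hb : b ∈ Desc Rt w0) (hbZ : φ b ∉ Z) {x : V} (hx : x ∈ FF Rt G Z φ w0)
    (h : G.Adj (φ (Rt.par b)) x) : φ b ∈ FF Rt G Z φ w0 := by
  obtain ⟨i, hi⟩ := hx
  exact ⟨i + 1, Or.inr ⟨b, hb, hbZ, rfl, Or.inr ⟨x, hi, h⟩⟩⟩

end Ctx

end Pool.Agent.Lib_MP_f6e057_co.Exch
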