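import Mathlib

/-!
# Rooted presentations of finite trees, branches, partial embeddings (for the exchange lemma)
-/

set_option autoImplicit false
set_option linter.unusedSectionVars false

namespace Pool.Agent.Lib_MP_f6e057_co.Exch

open Finset

/-- a rooted presentation of a tree `T` with root `y` -/
structure Rooted {W : Type*} (T : SimpleGraph W) (y : W) where
  par : W → W
  dep : W → ℕ
  par_root : par y = y
  adj_par : ∀ a, a ≠ y → T.Adj (par a) a
  dep_par : ∀ a, a ≠ y → dep (par a) + 1 = dep a
  adj_cases : ∀ a b, T.Adj a b → (b ≠ y ∧ par b = a) ∨ (a ≠ y ∧ par a = b)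

theorem exists_rooted {W : Type*} {T : SimpleGraph W} (hT : T.IsTree) (y : W) :
    Nonempty (Rooted T y) := by
  classical
  have hex := fun a => hT.connected.exists_path_of_dist y a
  choose p hp hlen using hex
  have hadj : ∀ a, a ≠ y → T.Adj ((p a).penultimate) a := by
    intro a ha
    apply SimpleGraph.Walk.adj_penultimate
    intro hn
    exact ha (hn.eq).symm
  have hpen : ∀ a b, T.Adj a b → b ∈ (p a).support → (a ≠ y ∧ (p a).penultimate = b) := by
    intro a b hab hb
    refine ⟨?_, (hT.isAcyclic.eq_penultimate_of_adj_end (hp a) hab hb).symm⟩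
    rintro rfl
    have h0 : (p a).length = 0 := by rw [hlen]; simp
    have hnil : (p a).Nil := SimpleGraph.Walk.length_eq_zero_iff.1 h0
    have : (p a).support = [a] := SimpleGraph.Walk.nil_iff_support_eq.1 hnil
    rw [this] at hb
    simp only [List.mem_singleton] at hb
    exact hab.ne hb.symm
  refine ⟨{ par := fun a => if a = y then y else (p a).penultimate
            dep := fun a => T.dist y a
            par_root := by simp
            adj_par := ?_, dep_par := ?_, adj_cases := ?_ }⟩
  · intro a ha
    simp only [ha, if_false]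
    exact hadj a ha
  · intro a ha
    simp only [ha, if_false]
    have h1 : T.dist y (p a).penultimate ≤ (p a).dropLast.length := SimpleGraph.dist_le _
    have h2 : (p a).dropLast.length + 1 = (p a).length := by
      have hn : ¬ (p a).Nil := fun hn => ha (hn.eq).symm
      have := SimpleGraph.Walk.length_dropLast_add_one hn
      exact this
    have h3 := hT.dist_eq_dist_add_one_of_adj y (hadj a ha)
    rw [hlen] at h2
    omega
  · intro a b hab
    by_cases hb : b ∈ (p a).support
    · right
      obtain ⟨h1, h2⟩ := hpen a b hab hb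
      refine ⟨h1, ?_⟩
      simp [h1, h2]
    · left
      have ha : a ∈ (p b).support :=
        hT.isAcyclic.mem_support_of_ne_mem_support_of_adj_of_isPath (hp b) (hp a) hab.symm hb
      obtain ⟨h1, h2⟩ := hpen b a hab.symm ha
      refine ⟨h1, ?_⟩
      simp [h1, h2]

section Desc

variable {W : Type*} [Fintype W] [DecidableEq W] {T : SimpleGraph W} {y : W} (Rt : Rooted T y)

open Classical in
/-- the descendants of `a` (including `a`) -/
noncomputable def Desc (a : W) : Finset W := univ.filter fun b => ∃ n : ℕ, Rt.par^[n] b = a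

theorem mem_Desc {a b : W} : b ∈ Desc Rt a ↔ ∃ n : ℕ, Rt.par^[n] b = a := by
  simp [Desc]

theorem self_mem (a : W) : a ∈ Desc Rt a := (mem_Desc Rt).2 ⟨0, rfl⟩

theorem par_mem {a b : W} (h : b ∈ Desc Rt a) (hne : b ≠ a) : Rt.par b ∈ Desc Rt a := by
  rw [mem_Desc] at *
  obtain ⟨n, hn⟩ := h
  cases n with
  | zero => exact absurd hn hne
  | succ n => exact ⟨n, by rwa [Function.iterate_succ_apply] at hn⟩

theorem child_mem {a b : W} (h : Rt.par b ∈ Desc Rt a) : b ∈ Desc Rt a := by
  rw [mem_Desc] at *
  obtain ⟨n, hn⟩ := h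
  exact ⟨n + 1, by rwa [Function.iterate_succ_apply]⟩

theorem desc_trans {a b c : W} (h : b ∈ Desc Rt a) (h' : c ∈ Desc Rt b) : c ∈ Desc Rt a := by
  rw [mem_Desc] at *
  obtain ⟨n, hn⟩ := h
  obtain ⟨k, hk⟩ := h'
  exact ⟨n + k, by rw [Function.iterate_add_apply, hk, hn]⟩

theorem iter_root (n : ℕ) : Rt.par^[n] y = y := by
  induction n with
  | zero => rfl
  | succ n ih => rw [Function.iterate_succ_apply, Rt.par_root, ih]

theorem eq_root_of_root_mem {a : W} (h : y ∈ Desc Rt a) : a = y := by
  rw [mem_Desc] at h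
  obtain ⟨n, hn⟩ := h
  rw [iter_root] at hn
  exact hn.symm

theorem dep_le {a b : W} (h : b ∈ Desc Rt a) : Rt.dep a ≤ Rt.dep b := by
  rw [mem_Desc] at h
  obtain ⟨n, hn⟩ := h
  induction n generalizing b with
  | zero => rw [← hn]; rfl
  | succ n ih =>
    rw [Function.iterate_succ_apply] at hn
    have h1 := ih hn
    by_cases hb : b = y
    · rw [hb, Rt.par_root] at h1
      rw [hb]; exact h1
    · have := Rt.dep_par b hb
      omega

theorem dep_lt {a b : W} (h : b ∈ Desc Rt a) (hne : b ≠ a) : Rt.dep a < Rt.dep b := by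
  have hb : b ≠ y := by
    rintro rfl
    exact hne (eq_root_of_root_mem Rt h).symm
  have h1 := dep_le Rt (par_mem Rt h hne)
  have h2 := Rt.dep_par b hb
  omega

theorem desc_antisymm {a b : W} (h : b ∈ Desc Rt a) (h' : a ∈ Desc Rt b) : a = b := by
  by_contra hne
  have h1 := dep_lt Rt h (fun h => hne h.symm)
  have h2 := dep_le Rt h'
  omega

theorem desc_comparable {a b c : W} (h : c ∈ Desc Rt a) (h' : c ∈ Desc Rt b) :
    a ∈ Desc Rt b ∨ b ∈ Desc Rt a := by
  rw [mem_Desc] at h h'
  obtain ⟨n, hn⟩ := h
  obtain ⟨k, hk⟩ := h'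
  rcases le_total n k with hle | hle
  · left
    rw [mem_Desc]
    refine ⟨k - n, ?_⟩
    rw [← hn, ← Function.iterate_add_apply, Nat.sub_add_cancel hle, hk]
  · right
    rw [mem_Desc]
    refine ⟨n - k, ?_⟩
    rw [← hk, ← Function.iterate_add_apply, Nat.sub_add_cancel hle, hn]

theorem desc_subset {a b : W} (h : b ∈ Desc Rt a) : Desc Rt b ⊆ Desc Rt a :=
  fun _ hc => desc_trans Rt h hc

theorem desc_card_lt {a b : W} (h : b ∈ Desc Rt a) (hne : b ≠ a) :
    (Desc Rt b).card < (Desc Rt a).card := by
  apply card_lt_card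
  refine ssubset_of_subset_of_ne (desc_subset Rt h) ?_
  intro heq
  have : a ∈ Desc Rt b := by rw [heq]; exact self_mem Rt a
  exact hne (desc_antisymm Rt h this).symm

theorem ne_par {a : W} (ha : a ≠ y) : Rt.par a ≠ a := (Rt.adj_par a ha).ne

theorem par_notMem {a : W} (ha : a ≠ y) : Rt.par a ∉ Desc Rt a := by
  intro h
  have h1 := dep_le Rt h
  have h2 := Rt.dep_par a ha
  omega

/-- every role has a childless descendant -/
theorem exists_childless (a : W) : ∃ l ∈ Desc Rt a, ∀ b, b ≠ y → Rt.par b ≠ l := by
  obtain ⟨l, hl, hmax⟩ := (Desc Rt a).exists_max_image Rt.dep ⟨a, self_mem Rt a⟩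
  refine ⟨l, hl, ?_⟩
  intro b hb hbl
  have h1 : b ∈ Desc Rt a := child_mem Rt (by rw [hbl]; exact hl)
  have h2 := hmax b h1
  have h3 := Rt.dep_par b hb
  rw [hbl] at h3
  omega

open Classical in
/-- the branch of `T` at `v` through the neighbour `w` -/
noncomputable def Br (T : SimpleGraph W) (v w : W) : Finset W :=
  univ.filter fun b => (T.deleteEdges {s(v, w)}).Reachable w b

theorem br_eq_desc {a : W} (ha : a ≠ y) : Br T (Rt.par a) a = Desc Rt a := by
  classical
  ext b
  simp only [Br, mem_filter, mem_univ, true_and]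
  constructor
  · intro h
    obtain ⟨p⟩ := h
    have key : ∀ {u v : W} (q : (T.deleteEdges {s(Rt.par a, a)}).Walk u v), u ∈ Desc Rt a →
        v ∈ Desc Rt a := by
      intro u v q
      induction q with
      | nil => exact id
      | @cons u v w hadj q ih =>
        intro hu
        apply ih
        rw [SimpleGraph.deleteEdges_adj] at hadj
        obtain ⟨h1, h2⟩ := hadj
        rcases Rt.adj_cases u v h1 with ⟨hv, hp⟩ | ⟨hu', hp⟩
        · exact child_mem Rt (by rw [hp]; exact hu)
        · by_cases hua : u = a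
          · exfalso
            apply h2
            rw [← hp, hua]
            simp [Sym2.eq_swap]
          · rw [← hp]
            exact par_mem Rt hu hua
    exact key p (self_mem Rt a)
  · intro h
    rw [mem_Desc] at h
    obtain ⟨n, hn⟩ := h
    induction n generalizing b with
    | zero => rw [← hn]; rfl
    | succ n ih =>
      rw [Function.iterate_succ_apply] at hn
      have h1 := ih _ hn
      by_cases hb : b = y
      · rw [hb, Rt.par_root] at h1
        rw [hb]; exact h1
      · refine h1.trans (SimpleGraph.Adj.reachable ?_)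
        rw [SimpleGraph.deleteEdges_adj]
        refine ⟨Rt.adj_par b hb, ?_⟩
        intro h2
        simp only [Set.mem_singleton_iff, Sym2.eq, Sym2.rel_iff', Prod.mk.injEq, Prod.swap_prod_mk] at h2
        have hmem : Rt.par b ∈ Desc Rt a := (mem_Desc Rt).2 ⟨n, hn⟩
        rcases h2 with ⟨h3, h4⟩ | ⟨h3, h4⟩
        · rw [h3] at hmem
          exact par_notMem Rt ha hmem
        · have hb2 : b ∈ Desc Rt a := child_mem Rt hmem
          rw [h4] at hb2
          exact par_notMem Rt ha hb2

end Desc

end Pool.Agent.Lib_MP_f6e057_co.Exch
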