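import Pool.Agent.Lib_MP_f6e057_co.Freeable

/-!
# The final re-embedding (for the exchange lemma)
-/

set_option autoImplicit false
set_option linter.unusedSectionVars false

namespace Pool.Agent.Lib_MP_f6e057_co.Exch

open Finset

section Stages

variable {W : Type*} [Fintype W] [DecidableEq W] {T : SimpleGraph W} {y : W} (Rt : Rooted T y)
variable {V : Type*} [Fintype V] [DecidableEq V] (G : SimpleGraph V) [DecidableRel G.Adj]
variable (Z : Finset V) (φ : W → V) (w0 : W)

open Classical in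
/-- the roles of the core with a child in the core -/
noncomputable def intR : Finset W := univ.filter fun z =>
  z ∈ Desc Rt w0 ∧ φ z ∈ Z ∧ ∃ z', Rt.par z' = z ∧ φ z' ∈ Z

theorem mem_intR {z : W} : z ∈ intR Rt Z φ w0 ↔
    z ∈ Desc Rt w0 ∧ φ z ∈ Z ∧ ∃ z', Rt.par z' = z ∧ φ z' ∈ Z := by
  simp [intR]

variable {Rt G Z φ w0}

theorem Ctx.intR_nadj (C : Ctx Rt G Z φ w0) {z : W} (hz : z ∈ intR Rt Z φ w0) {x : V}
    (hx : x ∈ FF Rt G Z φ w0) : ¬ G.Adj (φ z) x := by
  obtain ⟨h1, h2, z', h3, h4⟩ := (mem_intR Rt Z φ w0).1 hz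
  exact C.nadj h1 h2 h3 h4 hx

theorem Ctx.intR_par (C : Ctx Rt G Z φ w0) {z : W} (hz : z ∈ intR Rt Z φ w0) (hne : z ≠ w0) :
    Rt.par z ∈ intR Rt Z φ w0 := by
  obtain ⟨h1, h2, z', h3, h4⟩ := (mem_intR Rt Z φ w0).1 hz
  exact (mem_intR Rt Z φ w0).2 ⟨par_mem Rt h1 hne, C.anc1 h1 h2 hne, z, rfl, h2⟩

theorem Ctx.intR_anc (C : Ctx Rt G Z φ w0) {a b : W} (ha : a ∈ intR Rt Z φ w0)
    (hb : b ∈ Desc Rt w0) (hab : a ∈ Desc Rt b) : b ∈ intR Rt Z φ w0 := by
  have key : ∀ (n : ℕ) (a : W), Rt.par^[n] a = b → a ∈ intR Rt Z φ w0 → b ∈ intR Rt Z φ w0 := by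
    intro n
    induction n with
    | zero => intro a h ha; rw [← h]; exact ha
    | succ n ih =>
      intro a h ha
      rw [Function.iterate_succ_apply] at h
      by_cases hab : a = b
      · rw [← hab]; exact ha
      · have hmem : a ∈ Desc Rt b := (mem_Desc Rt).2 ⟨n + 1, by
          rw [Function.iterate_succ_apply]; exact h⟩
        have hne : a ≠ w0 := by
          rintro rfl
          exact hab (desc_antisymm Rt hb hmem)
        exact ih (Rt.par a) h (C.intR_par ha hne)
  obtain ⟨n, hn⟩ := (mem_Desc Rt).1 hab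
  exact key n a hn ha

/-- stage 1: the roles of `intR` are placed outside the copy -/
theorem Ctx.stage1 (C : Ctx Rt G Z φ w0) (hI : w0 ∈ intR Rt Z φ w0) :
    ∃ g, PE Rt G (univ \ Desc Rt w0 ∪ intR Rt Z φ w0) g ∧ (∀ a, a ∉ Desc Rt w0 → g a = φ a) ∧
      (∀ a ∈ intR Rt Z φ w0, ∀ b, φ b ≠ g a) := by
  have hsubD : ∀ a ∈ intR Rt Z φ w0, a ∈ Desc Rt w0 := fun a ha => ((mem_intR Rt Z φ w0).1 ha).1
  have hPK : ∀ a, a ∈ univ \ Desc Rt w0 ↔ a ∉ Desc Rt w0 := by
    intro a; simp
  have h0 : PE Rt G (univ \ Desc Rt w0) φ := by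
    apply C.copy.pe Rt G
    · rw [hPK]; exact C.y_notMem
    · intro a ha
      rw [hPK] at *
      exact fun h => ha (child_mem Rt h)
  have hQ : ∀ a ∈ univ \ Desc Rt w0 ∪ intR Rt Z φ w0,
      Rt.par a ∈ univ \ Desc Rt w0 ∪ intR Rt Z φ w0 := by
    intro a ha
    rw [mem_union] at *
    rcases ha with ha | ha
    · left
      rw [hPK] at *
      exact fun h => ha (child_mem Rt h)
    · by_cases hw : a = w0
      · left
        rw [hPK, hw, C.par_w0]; exact C.y_notMem
      · right; exact C.intR_par ha hw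
  obtain ⟨g, h1, h2, h3⟩ := grow Rt G subset_union_left hQ h0 {x | ∀ a, φ a ≠ x} (by
    intro P g hP0 hPQ hPE hg0 hgF a haQ haP hpa
    have haI : a ∈ intR Rt Z φ w0 := by
      rcases mem_union.1 haQ with h | h
      · exact absurd (hP0 h) haP
      · exact h
    by_cases hw : a = w0
    · subst hw
      obtain ⟨c, hc1, hc2⟩ := C.ynb
      have hPsub : ∀ b ∈ P, b ∉ Desc Rt a := by
        intro b hb hbD
        exact haP (hPE.anc Rt G hb hbD)
      refine ⟨c, hc2, ?_, ?_⟩
      · intro b hb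
        rw [hg0 b ((hPK b).2 (hPsub b hb))]
        exact hc2 b
      · rw [C.par_w0, hg0 y ((hPK y).2 C.y_notMem)]
        exact hc1
    · have hpI := C.intR_par haI hw
      have hpD := hsubD _ hpI
      have hpP0 : Rt.par a ∉ univ \ Desc Rt w0 := fun h => (hPK _).1 h hpD
      have hxC := hgF _ hpa hpP0
      have hxF : g (Rt.par a) ∈ FF Rt G Z φ w0 := cl0 hxC
      set S : Finset V := (P \ (univ \ Desc Rt w0)).image g ∪ (univ \ intR Rt Z φ w0).image φ
        with hS
      have hSc : S.card ≤ G.degree (g (Rt.par a)) := by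
        refine le_trans ?_ (C.FF_deg hxF)
        have k1 : (P \ (univ \ Desc Rt w0)) ⊆ (intR Rt Z φ w0).erase a := by
          intro b hb
          rw [mem_sdiff] at hb
          rw [mem_erase]
          refine ⟨fun h => haP (h ▸ hb.1), ?_⟩
          rcases mem_union.1 (hPQ hb.1) with h | h
          · exact absurd h hb.2
          · exact h
        have k2 := card_le_card k1
        rw [card_erase_of_mem haI] at k2
        have k3 : 0 < (intR Rt Z φ w0).card := card_pos.2 ⟨a, haI⟩
        have k4 : (univ \ intR Rt Z φ w0).card = Fintype.card W - (intR Rt Z φ w0).card := by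
          rw [card_sdiff_of_subset (subset_univ _), card_univ]
        have k5 : (intR Rt Z φ w0).card ≤ Fintype.card W := card_le_univ _
        have k6 : S.card ≤ ((P \ (univ \ Desc Rt w0)).image g).card +
          ((univ \ intR Rt Z φ w0).image φ).card := card_union_le _ _
        have k7 : ((P \ (univ \ Desc Rt w0)).image g).card ≤ (P \ (univ \ Desc Rt w0)).card :=
          card_image_le
        have k8 : ((univ \ intR Rt Z φ w0).image φ).card ≤ (univ \ intR Rt Z φ w0).card :=
          card_image_le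
        omega
      have hxS : g (Rt.par a) ∈ S :=
        mem_union_left _ (mem_image_of_mem g (mem_sdiff.2 ⟨hpa, hpP0⟩))
      obtain ⟨v, hv1, hv2⟩ := exists_nbr G hxS hSc
      rw [hS, mem_union, not_or] at hv2
      have hvC : ∀ b, φ b ≠ v := by
        intro b hb
        by_cases hbI : b ∈ intR Rt Z φ w0
        · apply C.intR_nadj hbI hxF
          rw [hb]; exact hv1.symm
        · apply hv2.2
          rw [← hb]
          exact mem_image_of_mem φ (mem_sdiff.2 ⟨mem_univ _, hbI⟩)
      refine ⟨v, hvC, ?_, hv1⟩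
      intro b hb hbv
      by_cases hb0 : b ∈ univ \ Desc Rt w0
      · rw [hg0 b hb0] at hbv
        exact hvC b hbv
      · apply hv2.1
        rw [← hbv]
        exact mem_image_of_mem g (mem_sdiff.2 ⟨hb, hb0⟩))
  refine ⟨g, h1, fun a ha => h2 a ((hPK a).2 ha), ?_⟩
  intro a ha
  exact h3 a (mem_union_right _ ha) (fun h => (hPK a).1 h (hsubD a ha))

end Stages

end Pool.Agent.Lib_MP_f6e057_co.Exch
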